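import Pool.Agent.Lib.MP_33ede1_an.Branch

/-!
Polynomial identities for a one-parameter family of pairs of Blaschke products of degree seven.
The parameters satisfy `a + b = -1` and `l ^ 2 * (a * b) ^ 2 + a * b - 2 = 0`.
-/

namespace Pool.Agent.Lib.MP_33ede1_an.Near

noncomputable def Nn (l b t : ℂ) : ℂ := (t + l) * (t + l * b ^ 3)

noncomputable def Mm (l a t : ℂ) : ℂ := (1 + l * t) * (1 + l * a ^ 3 * t)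

noncomputable def gl (l : ℂ) : ℂ := 1 - l ^ 2

noncomputable def Bp (l a b x y : ℂ) : ℂ :=
  gam b * l * a ^ 3 * y + gam b * y ^ 4 + gam a * l * b ^ 3 * x +
    (gam a * l ^ 4 * b ^ 6 - gl l * b * gam b) * x * y ^ 3 -
    gl l * (b ^ 4 * gam a + a ^ 4 * gam b) * x ^ 2 * y ^ 2 +
    (gam b * l ^ 4 * a ^ 6 - gl l * a * gam a) * x ^ 3 * y + gam b * l * a ^ 3 * x ^ 3 * y ^ 4 +
    gam a * x ^ 4 + gam a * l * b ^ 3 * x ^ 4 * y ^ 3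

lemma factor' {l a b : ℂ} (hs : a + b = -1) (hr : l ^ 2 * (a * b) ^ 2 + a * b - 2 = 0) (x y : ℂ) :
    gam a * x * Nn l b (x ^ 3) * Mm l b (y ^ 3) + gam b * y * Nn l a (y ^ 3) * Mm l a (x ^ 3) =
      ((1 + l * y ^ 3) * x ^ 3 + gl l * a * y * x ^ 2 + gl l * b * y ^ 2 * x + (y ^ 3 + l)) *
        Bp l a b x y := by
  obtain rfl : b = -1 - a := by linear_combination hs
  unfold Bp gam Nn Mm gl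
  linear_combination (((1)*l + (3)*l*a + (2)*l*a^2 + (-2)*l*a^3 + (-3)*l*a^4 + (-1)*l*a^5 + (-1)*l^3 + (-3)*l^3*a +
    (-2)*l^3*a^2 + (2)*l^3*a^3 + (3)*l^3*a^4 + (1)*l^3*a^5)*x*y^3 +
    ((-1) + (-3)*a + (-4)*a^2 + (-3)*a^3 + (-1)*a^4 + (2)*l^2 + (7)*l^2*a + (9)*l^2*a^2 +
    (3)*l^2*a^3 + (-4)*l^2*a^4 + (-4)*l^2*a^5 + (-1)*l^2*a^6 + (-1)*l^4 + (-4)*l^4*a + (-5)*l^4*a^2
    + (5)*l^4*a^4 + (4)*l^4*a^5 + (1)*l^4*a^6)*x^2*y^5 +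
    ((2)*l*a^4 + (1)*l*a^5 + (-2)*l^3*a^4 + (-1)*l^3*a^5)*x^3*y +
    ((1) + (3)*a + (4)*a^2 + (3)*a^3 + (3)*a^4 + (1)*a^5 + (-1)*l^2 + (-4)*l^2*a + (-7)*l^2*a^2 +
    (-5)*l^2*a^3 + (-1)*l^2*a^4 + (2)*l^2*a^5 + (1)*l^2*a^6 + (1)*l^4*a + (3)*l^4*a^2 + (2)*l^4*a^3
    + (-2)*l^4*a^4 + (-3)*l^4*a^5 + (-1)*l^4*a^6)*x^3*y^4 +
    ((1) + (3)*a + (3)*a^2 + (-1)*a^3 + (-2)*a^4 + (-1)*a^5 + (-1)*l^2 + (-3)*l^2*a + (-3)*l^2*a^2 +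
    (1)*l^2*a^3 + (4)*l^2*a^4 + (4)*l^2*a^5 + (1)*l^2*a^6 + (-2)*l^4*a^4 + (-3)*l^4*a^5 +
    (-1)*l^4*a^6)*x^4*y^3 +
    ((1)*l + (3)*l*a + (2)*l*a^2 + (-2)*l*a^3 + (-3)*l*a^4 + (-1)*l*a^5 + (-1)*l^3 + (-3)*l^3*a +
    (-2)*l^3*a^2 + (2)*l^3*a^3 + (3)*l^3*a^4 + (1)*l^3*a^5)*x^4*y^6 +
    ((-1)*a^2 + (-1)*a^3 + (-1)*a^4 + (1)*l^2*a^2 + (1)*l^2*a^3 + (1)*l^2*a^4 + (-2)*l^2*a^5 +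
    (-1)*l^2*a^6 + (2)*l^4*a^5 + (1)*l^4*a^6)*x^5*y^2 +
    ((2)*l*a^4 + (1)*l*a^5 + (-2)*l^3*a^4 + (-1)*l^3*a^5)*x^6*y^4) * hr

lemma res3_val' {l a b : ℂ} (hs : a + b = -1) (hr : l ^ 2 * (a * b) ^ 2 + a * b - 2 = 0)
    (x z : ℂ) :
    res3 (1 + l * x ^ 3) (gl l * b * x) (gl l * a * x ^ 2) (x ^ 3 + l)
      (1 + l * z ^ 3) (gl l * b * z) (gl l * a * z ^ 2) (z ^ 3 + l) =
      gl l ^ 3 * ((z - x) ^ 2 *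
        (z * Nn l b (z ^ 3) * Mm l a (x ^ 3) - x * Nn l b (x ^ 3) * Mm l a (z ^ 3))) := by
  obtain rfl : b = -1 - a := by linear_combination hs
  unfold res3 Nn Mm gl
  linear_combination (((-1)*l + (-1)*l*a + (-1)*l*a^2 + (3)*l^3 + (3)*l^3*a + (3)*l^3*a^2 + (-3)*l^5 + (-3)*l^5*a +
    (-3)*l^5*a^2 + (1)*l^7 + (1)*l^7*a + (1)*l^7*a^2)*x*z^5 +
    ((-1) + (3)*l^2 + (-1)*l^2*a + (-1)*l^2*a^2 + (-3)*l^4 + (3)*l^4*a + (3)*l^4*a^2 + (1)*l^6 +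
    (-3)*l^6*a + (-3)*l^6*a^2 + (1)*l^8*a + (1)*l^8*a^2)*x*z^8 +
    ((2)*l + (2)*l*a + (2)*l*a^2 + (-6)*l^3 + (-6)*l^3*a + (-6)*l^3*a^2 + (6)*l^5 + (6)*l^5*a +
    (6)*l^5*a^2 + (-2)*l^7 + (-2)*l^7*a + (-2)*l^7*a^2)*x^2*z^4 +
    ((1) + (-2)*l^2 + (2)*l^2*a + (2)*l^2*a^2 + (-6)*l^4*a + (-6)*l^4*a^2 + (2)*l^6 + (6)*l^6*a +
    (6)*l^6*a^2 + (-1)*l^8 + (-2)*l^8*a + (-2)*l^8*a^2)*x^2*z^7 +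
    ((1) + (1)*a + (1)*a^2 + (-4)*l^2 + (-4)*l^2*a + (-4)*l^2*a^2 + (6)*l^4 + (6)*l^4*a +
    (6)*l^4*a^2 + (-4)*l^6 + (-4)*l^6*a + (-4)*l^6*a^2 + (1)*l^8 + (1)*l^8*a + (1)*l^8*a^2)*x^3*z^6
    +
    ((-2)*l + (-2)*l*a + (-2)*l*a^2 + (6)*l^3 + (6)*l^3*a + (6)*l^3*a^2 + (-6)*l^5 + (-6)*l^5*a +
    (-6)*l^5*a^2 + (2)*l^7 + (2)*l^7*a + (2)*l^7*a^2)*x^4*z^2 +
    ((-1) + (-3)*a + (-3)*a^2 + (1)*l^2 + (9)*l^2*a + (9)*l^2*a^2 + (3)*l^4 + (-9)*l^4*a +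
    (-9)*l^4*a^2 + (-5)*l^6 + (3)*l^6*a + (3)*l^6*a^2 + (2)*l^8)*x^4*z^5 +
    ((-1)*l + (-1)*l*a + (-1)*l*a^2 + (3)*l^3 + (3)*l^3*a + (3)*l^3*a^2 + (-3)*l^5 + (-3)*l^5*a +
    (-3)*l^5*a^2 + (1)*l^7 + (1)*l^7*a + (1)*l^7*a^2)*x^4*z^8 +
    ((1)*l + (1)*l*a + (1)*l*a^2 + (-3)*l^3 + (-3)*l^3*a + (-3)*l^3*a^2 + (3)*l^5 + (3)*l^5*a +
    (3)*l^5*a^2 + (-1)*l^7 + (-1)*l^7*a + (-1)*l^7*a^2)*x^5*z +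
    ((1) + (3)*a + (3)*a^2 + (-1)*l^2 + (-9)*l^2*a + (-9)*l^2*a^2 + (-3)*l^4 + (9)*l^4*a +
    (9)*l^4*a^2 + (5)*l^6 + (-3)*l^6*a + (-3)*l^6*a^2 + (-2)*l^8)*x^5*z^4 +
    ((2)*l + (2)*l*a + (2)*l*a^2 + (-6)*l^3 + (-6)*l^3*a + (-6)*l^3*a^2 + (6)*l^5 + (6)*l^5*a +
    (6)*l^5*a^2 + (-2)*l^7 + (-2)*l^7*a + (-2)*l^7*a^2)*x^5*z^7 +
    ((-1) + (-1)*a + (-1)*a^2 + (4)*l^2 + (4)*l^2*a + (4)*l^2*a^2 + (-6)*l^4 + (-6)*l^4*a +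
    (-6)*l^4*a^2 + (4)*l^6 + (4)*l^6*a + (4)*l^6*a^2 + (-1)*l^8 + (-1)*l^8*a + (-1)*l^8*a^2)*x^6*z^3
    +
    ((-1) + (2)*l^2 + (-2)*l^2*a + (-2)*l^2*a^2 + (6)*l^4*a + (6)*l^4*a^2 + (-2)*l^6 + (-6)*l^6*a +
    (-6)*l^6*a^2 + (1)*l^8 + (2)*l^8*a + (2)*l^8*a^2)*x^7*z^2 +
    ((-2)*l + (-2)*l*a + (-2)*l*a^2 + (6)*l^3 + (6)*l^3*a + (6)*l^3*a^2 + (-6)*l^5 + (-6)*l^5*a +
    (-6)*l^5*a^2 + (2)*l^7 + (2)*l^7*a + (2)*l^7*a^2)*x^7*z^5 +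
    ((1) + (-3)*l^2 + (1)*l^2*a + (1)*l^2*a^2 + (3)*l^4 + (-3)*l^4*a + (-3)*l^4*a^2 + (-1)*l^6 +
    (3)*l^6*a + (3)*l^6*a^2 + (-1)*l^8*a + (-1)*l^8*a^2)*x^8*z +
    ((1)*l + (1)*l*a + (1)*l*a^2 + (-3)*l^3 + (-3)*l^3*a + (-3)*l^3*a^2 + (3)*l^5 + (3)*l^5*a +
    (3)*l^5*a^2 + (-1)*l^7 + (-1)*l^7*a + (-1)*l^7*a^2)*x^8*z^4) * hr

/-- The right-hand side of the linear equation for the first coefficient. -/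
noncomputable def Rr (l a b : ℂ) : ℂ :=
  4 * (l * (1 + a ^ 3)) - 2 * (l ^ 2 * a ^ 3) * (l * (1 + b ^ 3))

/-- The trace of the quadratic equation for the leading coefficient. -/
noncomputable def Ss (l p : ℂ) : ℂ := 4 * p - 1 - l ^ 2 * p

lemma w_val {l a b : ℂ} (hs : a + b = -1) (hr : l ^ 2 * (a * b) ^ 2 + a * b - 2 = 0) :
    (Ss l (a * b) - (7 + (l * (1 + b ^ 3)) * (l * (1 + a ^ 3)) -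
        5 * (l ^ 2 * b ^ 3) * (l ^ 2 * a ^ 3))) *
      (Ss l (a * b) ^ 2 - 4 * ((l ^ 2 * a ^ 3) * (l ^ 2 * b ^ 3))) +
      Rr l a b * Rr l b a * Ss l (a * b) -
      (l ^ 2 * a ^ 3 * Rr l b a ^ 2 + l ^ 2 * b ^ 3 * Rr l a b ^ 2) = 0 := by
  obtain rfl : b = -1 - a := by linear_combination hs
  unfold Ss Rr
  linear_combination (((4) + (32)*a + (96)*a^2 + (128)*a^3 + (64)*a^4 + (-34)*l^2*a + (-163)*l^2*a^2 + (-234)*l^2*a^3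
    + (-73)*l^2*a^4 + (8)*l^2*a^5 + (-72)*l^2*a^6 + (-64)*l^2*a^7 + (-16)*l^2*a^8 + (-4)*l^4 +
    (6)*l^4*a + (83)*l^4*a^2 + (123)*l^4*a^3 + (32)*l^4*a^4 + (83)*l^4*a^5 + (177)*l^4*a^6 +
    (32)*l^4*a^7 + (-112)*l^4*a^8 + (-80)*l^4*a^9 + (-16)*l^4*a^10 + (-4)*l^6*a + (-16)*l^6*a^2 +
    (-17)*l^6*a^3 + (-23)*l^6*a^4 + (-91)*l^6*a^5 + (-105)*l^6*a^6 + (32)*l^6*a^7 + (128)*l^6*a^8 +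
    (80)*l^6*a^9 + (16)*l^6*a^10)) * hr

end Pool.Agent.Lib.MP_33ede1_an.Near
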