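import Pool.Agent.Lib.MP_33ede1_an.Conf

/-!
The image of the unit disc under a conformal map close to the identity is strictly convex.
-/

open Set Filter Topology Metric Complex
open scoped ComplexConjugate

namespace Pool.Agent.Lib.MP_33ede1_an.Near

/-- Cauchy's estimate and the mean value inequality. -/
lemma lip_of_near {f : ℂ → ℂ} {r δ : ℝ} (hr : 3 ≤ r) (hf : DifferentiableOn ℂ f (ball 0 r))
    (h1 : ∀ z ∈ ball (0 : ℂ) r, ‖f z - 1‖ ≤ δ) {y w : ℂ} (hy : y ∈ closedBall (0 : ℂ) 1)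
    (hw : w ∈ closedBall (0 : ℂ) 1) : ‖f y - f w‖ ≤ δ * ‖y - w‖ := by
  have sub : ∀ x ∈ closedBall (0 : ℂ) 1, closedBall x 1 ⊆ ball 0 r := fun x hx =>
    closedBall_subset_ball' (by rw [mem_closedBall] at hx; linarith)
  refine Convex.norm_image_sub_le_of_norm_deriv_le (fun x hx => ?_) (fun x hx => ?_)
    (convex_closedBall 0 1) hw hy
  · exact hf.differentiableAt (isOpen_ball.mem_nhds (sub x hx (mem_closedBall_self zero_le_one)))
  · have hd : DiffContOnCl ℂ (fun z => f z - 1) (ball x 1) := by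
      refine DifferentiableOn.diffContOnCl ?_
      rw [closure_ball x one_ne_zero]
      exact (hf.sub_const 1).mono (sub x hx)
    have := Complex.norm_deriv_le_of_forall_mem_sphere_norm_le one_pos hd
      (fun z hz => h1 z (sub x hx (sphere_subset_closedBall hz)))
    rwa [deriv_sub_const, div_one] at this

/-- The tangent line at a boundary point is a strict support line. -/
lemma support_line {F f : ℂ → ℂ} {δ : ℝ} (hδ : δ < 1 / 3)
    (hF : ∀ z ∈ closedBall (0 : ℂ) 1, HasDerivAt F (f z) z)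
    (h1 : ∀ z ∈ closedBall (0 : ℂ) 1, ‖f z - 1‖ ≤ δ)
    (h2 : ∀ y ∈ closedBall (0 : ℂ) 1, ∀ w ∈ closedBall (0 : ℂ) 1, ‖f y - f w‖ ≤ δ * ‖y - w‖)
    {w z : ℂ} (hw : ‖w‖ = 1) (hz : z ∈ closedBall (0 : ℂ) 1) (hne : z ≠ w) :
    ((F z - F w) * conj (w * f w)).re < 0 := by
  have hw' : w ∈ closedBall (0 : ℂ) 1 := by simp [hw]
  have δ0 : 0 ≤ δ := (norm_nonneg _).trans (h1 w hw')
  have ρ0 : 0 < ‖z - w‖ := norm_pos_iff.2 (sub_ne_zero.2 hne)
  have hE := Convex.norm_image_sub_le_of_norm_hasDerivWithin_le (f := fun y => F y - f w * y)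
    (f' := fun y => f y - f w) (C := δ * ‖z - w‖)
    (s := closedBall (0 : ℂ) 1 ∩ closedBall w ‖z - w‖)
    (fun y hy => (((hF y hy.1).sub ((hasDerivAt_id y).const_mul (f w))).congr_deriv
      (by rw [mul_one])).hasDerivWithinAt)
    (fun y hy => (h2 y hy.1 w hw').trans
      (mul_le_mul_of_nonneg_left (mem_closedBall_iff_norm.1 hy.2) δ0))
    ((convex_closedBall _ _).inter (convex_closedBall _ _))
    ⟨hw', mem_closedBall_self ρ0.le⟩ ⟨hz, mem_closedBall_iff_norm.2 le_rfl⟩
  obtain ⟨E, hE'⟩ : ∃ E, E = F z - f w * z - (F w - f w * w) := ⟨_, rfl⟩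
  rw [← hE'] at hE
  have ww : w * conj w = 1 := by rw [Complex.mul_conj', hw]; simp
  have e : (F z - F w) * conj (w * f w) =
      ((‖f w‖ ^ 2 : ℝ) : ℂ) * (z * conj w - 1) + E * conj (w * f w) := by
    rw [hE', map_mul]
    push_cast
    rw [← Complex.mul_conj']
    linear_combination (-(f w * conj (f w))) * ww
  have n1 : (E * conj (w * f w)).re ≤ δ * ‖z - w‖ * ‖z - w‖ * ‖f w‖ := by
    refine (re_le_norm _).trans ?_
    rw [norm_mul, norm_conj, norm_mul, hw, one_mul]
    exact mul_le_mul_of_nonneg_right hE (norm_nonneg _)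
  have n2 : ‖z - w‖ ^ 2 ≤ 2 - 2 * (z * conj w).re := by
    have a1 : ‖z‖ ^ 2 ≤ 1 := pow_le_one₀ (norm_nonneg _) (by simpa using hz)
    have a2 := Complex.normSq_sub z w
    simp only [Complex.normSq_eq_norm_sq, hw] at a2
    linarith
  have n3 : 1 - δ ≤ ‖f w‖ := by
    have := norm_sub_norm_le (1 : ℂ) (f w)
    rw [norm_sub_rev, norm_one] at this
    linarith [h1 w hw']
  rw [e, add_re, re_ofReal_mul, sub_re, one_re]
  have n4 : 0 < ‖f w‖ := by linarith
  have n5 : ‖f w‖ ^ 2 * ((z * conj w).re - 1) ≤ ‖f w‖ ^ 2 * (-(‖z - w‖ ^ 2) / 2) :=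
    mul_le_mul_of_nonneg_left (by linarith) (by positivity)
  have n6 : 0 < ‖z - w‖ ^ 2 * ‖f w‖ * (‖f w‖ / 2 - δ) :=
    mul_pos (by positivity) (by linarith)
  nlinarith

/-- An open set with a strict support line at every boundary point is strictly convex. -/
lemma strictConvex_of_support {Ω : Set ℂ} (ho : IsOpen Ω)
    (hs : ∀ m ∈ frontier Ω, ∃ ν : ℂ, ∀ p ∈ closure Ω, p ≠ m → ((p - m) * ν).re < 0) :
    Convex ℝ Ω ∧ StrictConvex ℝ (closure Ω) := by
  have A : ∀ p ∈ closure Ω, ∀ q ∈ closure Ω, p ≠ q → ∀ a b : ℝ, 0 < a → 0 < b → a + b = 1 →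
      a • p + b • q ∈ closure Ω → a • p + b • q ∈ Ω := by
    intro p hp q hq hne a b ha hb hab hm
    by_contra hn
    obtain ⟨ν, hν⟩ := hs _ (by rw [ho.frontier_eq]; exact ⟨hm, hn⟩)
    obtain ⟨m, hm'⟩ : ∃ m, m = a • p + b • q := ⟨_, rfl⟩
    rw [← hm'] at hν
    have le : ∀ x ∈ closure Ω, ((x - m) * ν).re ≤ 0 := fun x hx => by
      by_cases h : x = m
      · simp [h]
      · exact (hν x hx h).le
    have e : (a : ℂ) * ((p - m) * ν) + b * ((q - m) * ν) = 0 := by
      have hab' : (a : ℂ) + b = 1 := by exact_mod_cast hab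
      rw [real_smul, real_smul] at hm'
      linear_combination -ν * hm' - m * ν * hab'
    have e2 := congrArg re e
    rw [add_re, re_ofReal_mul, re_ofReal_mul, zero_re] at e2
    have l1 := mul_nonpos_of_nonneg_of_nonpos ha.le (le p hp)
    have l2 := mul_nonpos_of_nonneg_of_nonpos hb.le (le q hq)
    by_cases h : p = m
    · have := mul_neg_of_pos_of_neg hb (hν q hq fun h' => hne (h.trans h'.symm))
      linarith
    · have := mul_neg_of_pos_of_neg ha (hν p hp h)
      linarith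
  have B : Convex ℝ Ω := by
    refine convex_iff_segment_subset.2 fun p hp q hq => ?_
    refine (convex_segment p q).isPreconnected.subset_of_closure_inter_subset ho
      ⟨p, left_mem_segment ℝ p q, hp⟩ ?_
    rintro _ ⟨hm, a, b, ha, hb, hab, rfl⟩
    by_cases hne : p = q
    · rwa [hne, ← add_smul, hab, one_smul]
    rcases ha.eq_or_lt with rfl | ha
    · rw [zero_add] at hab
      simpa [hab] using hq
    rcases hb.eq_or_lt with rfl | hb
    · rw [add_zero] at hab
      simpa [hab] using hp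
    exact A p (subset_closure hp) q (subset_closure hq) hne a b ha hb hab hm
  refine ⟨B, fun p hp q hq hne a b ha hb hab => ?_⟩
  exact interior_maximal subset_closure ho
    (A p hp q hq hne a b ha hb hab (B.closure hp hq ha.le hb.le hab))

lemma strictConvex_image {F f : ℂ → ℂ} {r δ : ℝ} (h : Conf F r) (hr : 3 ≤ r) (hδ : δ < 1 / 3)
    (hF : ∀ z ∈ ball (0 : ℂ) r, HasDerivAt F (f z) z) (hf : DifferentiableOn ℂ f (ball 0 r))
    (h1 : ∀ z ∈ ball (0 : ℂ) r, ‖f z - 1‖ ≤ δ) :
    Convex ℝ (F '' ball 0 1) ∧ StrictConvex ℝ (closure (F '' ball 0 1)) := by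
  refine strictConvex_of_support (h.isOpen_image isOpen_ball h.sub_open) ?_
  rw [h.frontier_eq, h.closure_eq]
  rintro _ ⟨w, hw, rfl⟩
  refine ⟨conj (w * f w), ?_⟩
  rintro _ ⟨z, hz, rfl⟩ hne
  exact support_line hδ (fun z hz => hF z (h.sub_closed hz)) (fun z hz => h1 z (h.sub_closed hz))
    (fun y hy w hw => lip_of_near hr hf h1 hy hw) (by simpa using hw) hz
    (fun e => hne (by rw [e]))

end Pool.Agent.Lib.MP_33ede1_an.Near
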