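import Pool.Agent.Lib.MP_33ede1_an.Near.Par

/-!
The correspondence between the two Blaschke products of the family and isospectrality on the disc.
-/

open Set Filter Topology Metric InnerProductSpace Complex Polynomial
open scoped ContDiff ComplexConjugate

namespace Pool.Agent.Lib.MP_33ede1_an.Near

noncomputable def Ww (l a b t : ℂ) : ℂ :=
  (Nn l b t + 3 * t * (2 * t + l * (1 + b ^ 3))) * Mm l a t -
    3 * t * Nn l b t * (l * (1 + a ^ 3) + 2 * l ^ 2 * a ^ 3 * t)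

lemma hasDerivAt_M' (l a x : ℂ) : HasDerivAt (fun x => Mm l a (x ^ 3))
    (3 * x ^ 2 * (l * (1 + a ^ 3) + 2 * l ^ 2 * a ^ 3 * x ^ 3)) x := by
  have h3 := hasDerivAt_pow 3 x
  have := ((h3.const_mul l).const_add 1).mul ((h3.const_mul (l * a ^ 3)).const_add 1)
  refine this.congr_deriv ?_
  push_cast
  ring

lemma hasDerivAt_xN' (l b x : ℂ) : HasDerivAt (fun x => x * Nn l b (x ^ 3))
    (Nn l b (x ^ 3) + 3 * x ^ 3 * (2 * x ^ 3 + l * (1 + b ^ 3))) x := by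
  have h3 := hasDerivAt_pow 3 x
  have := (hasDerivAt_id x).mul ((h3.add_const l).mul (h3.add_const (l * b ^ 3)))
  refine this.congr_deriv ?_
  simp only [Nn, id, Pi.mul_apply]
  push_cast
  ring

lemma hasDerivAt_bb' {l a b x : ℂ} (h : Mm l a (x ^ 3) ≠ 0) :
    HasDerivAt (bl l a b) (gam a * (Ww l a b (x ^ 3) / Mm l a (x ^ 3) ^ 2)) x := by
  have := ((hasDerivAt_xN' l b x).div (hasDerivAt_M' l a x) h).const_mul (gam a)
  refine this.congr_deriv ?_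
  rw [Ww]
  ring

lemma analyticAt_M' (l a x : ℂ) : AnalyticAt ℂ (fun x => Mm l a (x ^ 3)) x := by
  unfold Mm
  fun_prop

lemma analyticAt_bb' {l a b x : ℂ} (h : Mm l a (x ^ 3) ≠ 0) : AnalyticAt ℂ (bl l a b) x := by
  have h1 : AnalyticAt ℂ (fun x => x * Nn l b (x ^ 3)) x := by
    unfold Nn
    fun_prop
  exact analyticAt_const.mul (h1.div (analyticAt_M' l a x) h)

namespace Par

variable (D : Par)

lemma gen_le {x : ℂ} {B₁ B₂ : ℝ} (h1 : 0 < B₁) (h2 : B₂ ≤ B₁)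
    (e : ‖x‖ * ‖Nn D.l D.b (x ^ 3)‖ * B₁ = B₂ * ‖Mm D.l D.a (x ^ 3)‖) : ‖x‖ ≤ 1 := by
  by_contra hx
  have hx := not_le.1 hx
  have n1 := D.N_ge (Dat.cube_ge hx.le)
  have n2 := norm_pos_iff.2 (D.N_ne (Dat.cube_ge hx.le))
  have n3 := norm_nonneg (Mm D.l D.a (x ^ 3))
  have a1 : B₂ * ‖Mm D.l D.a (x ^ 3)‖ ≤ B₁ * ‖Nn D.l D.b (x ^ 3)‖ := mul_le_mul h2 n1 n3 h1.le
  have a2 : 0 < (‖x‖ - 1) * (‖Nn D.l D.b (x ^ 3)‖ * B₁) := mul_pos (by linarith) (mul_pos n2 h1)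
  nlinarith

lemma gen_lt {x : ℂ} {B₁ B₂ : ℝ} (h1 : 0 < B₁) (h2 : B₂ < B₁)
    (e : ‖x‖ * ‖Nn D.l D.b (x ^ 3)‖ * B₁ = B₂ * ‖Mm D.l D.a (x ^ 3)‖) : ‖x‖ < 1 := by
  have hx := D.gen_le h1 h2.le e
  refine lt_of_le_of_ne hx fun hx1 => ?_
  have n1 := D.N_ge (Dat.cube_ge hx1.ge)
  have n2 := norm_pos_iff.2 (D.M_ne' hx)
  rw [hx1] at e
  nlinarith

lemma xN_le {y : ℂ} (hy : ‖y‖ ≤ 1) : ‖y‖ * ‖Nn D.l D.b (y ^ 3)‖ ≤ ‖Mm D.l D.a (y ^ 3)‖ := by
  have := D.N_le (Dat.cube_le hy)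
  nlinarith [norm_nonneg (Nn D.l D.b (y ^ 3)), norm_nonneg y]

lemma xN_lt {y : ℂ} (hy : ‖y‖ < 1) : ‖y‖ * ‖Nn D.l D.b (y ^ 3)‖ < ‖Mm D.l D.a (y ^ 3)‖ := by
  have := D.N_le (Dat.cube_le hy.le)
  have n2 := norm_pos_iff.2 (D.M_ne' hy.le)
  nlinarith [norm_nonneg (Nn D.l D.b (y ^ 3)), norm_nonneg y]

lemma E_norm {x y : ℂ} (e : gam D.a * x * Nn D.l D.b (x ^ 3) * Mm D.l D.b (y ^ 3) +
    gam D.b * y * Nn D.l D.a (y ^ 3) * Mm D.l D.a (x ^ 3) = 0) :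
    ‖x‖ * ‖Nn D.l D.b (x ^ 3)‖ * ‖Mm D.l D.b (y ^ 3)‖ =
      ‖y‖ * ‖Nn D.l D.a (y ^ 3)‖ * ‖Mm D.l D.a (x ^ 3)‖ := by
  have h := congrArg norm (eq_neg_of_add_eq_zero_left e)
  simp only [norm_neg, norm_mul, D.norm_gam] at h
  apply mul_left_cancel₀ D.gam_bd.1.ne'
  linear_combination h

lemma A_E {x y : ℂ} (e : (1 + D.l * y ^ 3) * x ^ 3 + gl D.l * D.a * y * x ^ 2 +
    gl D.l * D.b * y ^ 2 * x + (y ^ 3 + D.l) = 0) :
    gam D.a * x * Nn D.l D.b (x ^ 3) * Mm D.l D.b (y ^ 3) +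
      gam D.b * y * Nn D.l D.a (y ^ 3) * Mm D.l D.a (x ^ 3) = 0 := by
  rw [factor' D.hs D.hr, e, zero_mul]

lemma A_le {x y : ℂ} (hy : ‖y‖ ≤ 1) (e : (1 + D.l * y ^ 3) * x ^ 3 + gl D.l * D.a * y * x ^ 2 +
    gl D.l * D.b * y ^ 2 * x + (y ^ 3 + D.l) = 0) : ‖x‖ ≤ 1 :=
  D.gen_le (norm_pos_iff.2 (D.swap.M_ne' hy)) (D.swap.xN_le hy) (D.E_norm (D.A_E e))

lemma A_lt {x y : ℂ} (hy : ‖y‖ < 1) (e : (1 + D.l * y ^ 3) * x ^ 3 + gl D.l * D.a * y * x ^ 2 +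
    gl D.l * D.b * y ^ 2 * x + (y ^ 3 + D.l) = 0) : ‖x‖ < 1 :=
  D.gen_lt (norm_pos_iff.2 (D.swap.M_ne' hy.le)) (D.swap.xN_lt hy) (D.E_norm (D.A_E e))

lemma lead {y : ℂ} (hy : ‖y‖ ≤ 1) : 1 + D.l * y ^ 3 ≠ 0 := left_ne_zero_of_mul (D.M_ne' hy)

/-- The polynomial whose roots form the fibre of the degree seven map. -/
noncomputable def fib (w : ℂ) : ℂ[X] :=
  C (gam D.a) * X * ((X ^ 3 + C D.l) * (X ^ 3 + C (D.l * D.b ^ 3))) -
    C w * ((1 + C D.l * X ^ 3) * (1 + C (D.l * D.a ^ 3) * X ^ 3))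

lemma fib_eval (w z : ℂ) :
    (D.fib w).eval z = gam D.a * z * Nn D.l D.b (z ^ 3) - w * Mm D.l D.a (z ^ 3) := by
  simp only [fib, Nn, Mm, eval_sub, eval_mul, eval_C, eval_X, eval_add, eval_pow, eval_one]

lemma fib_root {x z : ℂ} (hx : ‖x‖ ≤ 1) (e : (D.fib (bl D.l D.a D.b x)).eval z = 0) :
    ‖z‖ ≤ 1 ∧ bl D.l D.a D.b z = bl D.l D.a D.b x := by
  have hM := D.M_ne' hx
  have hg := D.gam_ne
  rw [fib_eval] at e
  have e2 : z * Nn D.l D.b (z ^ 3) * Mm D.l D.a (x ^ 3) = x * Nn D.l D.b (x ^ 3) * Mm D.l D.a (z ^ 3) := by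
    rw [bl] at e
    field_simp at e
    apply mul_left_cancel₀ hg
    linear_combination e
  have e3 := congrArg norm e2
  simp only [norm_mul] at e3
  have hz := D.gen_le (norm_pos_iff.2 hM) (D.xN_le hx) e3
  refine ⟨hz, ?_⟩
  have hM' := D.M_ne' hz
  rw [bl, bl, (div_eq_div_iff hM' hM).2 e2]

lemma inj (u : ℂ → ℝ) (hu : trans (fun y => 1 + D.l * y ^ 3) (fun y => gl D.l * D.a * y)
    (fun y => gl D.l * D.b * y ^ 2) (fun y => y ^ 3 + D.l) u = 0) :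
    ∀ x ∈ closedBall (0 : ℂ) 1, u x = 0 := by
  refine Corr.inj (b := bl D.l D.a D.b) (P := D.fib) (fun x hx => ⟨?_, fun z => D.fib_root hx⟩) ?_ u hu
  · intro h0
    have := (D.fib_root (z := 2) hx (by rw [h0, eval_zero])).1
    norm_num at this
  · intro x hx
    have hl := D.lead hx
    have hM := D.M_ne' hx
    have hg := D.gam_ne
    have hgg := D.gl_ne
    obtain ⟨y1, y2, y3, -, f2, f1, f0⟩ :=
      exists_fac (gl D.l * D.b * x) (gl D.l * D.a * x ^ 2) (x ^ 3 + D.l) hl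
    obtain ⟨r1, r2, r3⟩ := Corr.root_eqs f2 f1 f0
    refine ⟨y1, y2, y3, gl D.l ^ 3 * Mm D.l D.a (x ^ 3) / (gam D.a * (1 + D.l * x ^ 3) ^ 3),
      D.swap.A_le hx r1, D.swap.A_le hx r2, D.swap.A_le hx r3, by positivity, fun z => ?_⟩
    have k := res3_eq (1 + D.l * z ^ 3) (gl D.l * D.b * z) (gl D.l * D.a * z ^ 2) (z ^ 3 + D.l) f2 f1 f0
    rw [res3_val' D.hs D.hr] at k
    rw [fib_eval, bl]
    field_simp
    linear_combination k

lemma W_fac (t : ℂ) : Ww D.l D.a D.b t = D.k * (t ^ 2 + D.q1 * t + D.q2) * QQ D.p1 D.p2 t := by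
  have w1 := D.w1
  have w1' := D.w1'
  unfold Rr at w1 w1'
  unfold Ww Nn Mm QQ
  linear_combination -D.w0 - t * w1 - t ^ 2 * D.w2 - t ^ 3 * w1' - t ^ 4 * D.w0'

/-- The logarithmic derivative on the circle. -/
noncomputable def LL (x : ℂ) : ℝ := D.k * ‖QQ D.p1 D.p2 (x ^ 3) / Mm D.l D.a (x ^ 3)‖ ^ 2

lemma LL_pos {x : ℂ} (hx : ‖x‖ = 1) : 0 < D.LL x := by
  have h1 := D.M_ne' hx.le
  have h2 := D.Q_ne (t := x ^ 3) ((Dat.cube_le hx.le).trans D.r_pow.1)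
  have h3 : 0 < D.k := lt_of_lt_of_le (by norm_num) D.hk
  exact mul_pos h3 (pow_pos (norm_pos_iff.2 (div_ne_zero h2 h1)) 2)

lemma logder {x : ℂ} (hx : ‖x‖ = 1) :
    x * (gam D.a * (Ww D.l D.a D.b (x ^ 3) / Mm D.l D.a (x ^ 3) ^ 2)) = bl D.l D.a D.b x * D.LL x := by
  have hM := D.M_ne' hx.le
  set t := x ^ 3 with ht
  have h1 : t * conj t = 1 := by
    rw [Complex.mul_conj', ht, norm_pow, hx]; simp
  have e1 : t ^ 2 + D.q1 * t + D.q2 = t ^ 2 * conj (QQ D.p1 D.p2 t) := by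
    have a1 : conj D.p1 = D.q1 := D.swap.h1
    have a2 : conj D.p2 = D.q2 := D.swap.h2
    simp only [QQ, map_add, map_mul, map_pow, map_one, a1, a2]
    linear_combination (-D.q1 * t - D.q2 * (t * conj t + 1)) * h1
  have e2 : Nn D.l D.b t = t ^ 2 * conj (Mm D.l D.a t) := by
    simp only [Nn, Mm, map_add, map_mul, map_pow, map_one, D.hl, D.ha]
    linear_combination (-D.l * t * (1 + D.b ^ 3) - D.l ^ 2 * D.b ^ 3 * (t * conj t + 1)) * h1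
  have hM' : conj (Mm D.l D.a t) ≠ 0 := by simpa using hM
  rw [W_fac, bl, LL, e1, ← ht, e2]
  push_cast
  rw [← Complex.mul_conj', map_div₀]
  field_simp

lemma bb_ne {x : ℂ} (hx : ‖x‖ = 1) : bl D.l D.a D.b x ≠ 0 := by
  have h1 := D.M_ne' hx.le
  have h2 := D.N_ne (Dat.cube_ge hx.ge)
  have h3 := D.gam_ne
  have h4 : x ≠ 0 := by rintro rfl; simp at hx
  unfold bl
  positivity

lemma norm_f (x : ℂ) : D.k * ‖D.f x‖ = ‖1 + D.c * bl D.l D.a D.b x ^ 3‖ * D.LL x := by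
  rw [f, fl, LL, norm_mul, norm_pow]
  ring

lemma branch {x y : ℂ} (hy : ‖y‖ = 1) (e : (1 + D.l * y ^ 3) * x ^ 3 + gl D.l * D.a * y * x ^ 2 +
    gl D.l * D.b * y ^ 2 * x + (y ^ 3 + D.l) = 0) :
    ‖x‖ = 1 ∧ 3 * (1 + D.l * y ^ 3) * x ^ 2 + 2 * (gl D.l * D.a * y) * x + gl D.l * D.b * y ^ 2 ≠ 0 ∧
    ∃ ξ : ℂ → ℂ, AnalyticAt ℂ ξ y ∧ ξ y = x ∧
      (∀ᶠ w in 𝓝 y, (1 + D.l * w ^ 3) * ξ w ^ 3 + gl D.l * D.a * w * ξ w ^ 2 +
        gl D.l * D.b * w ^ 2 * ξ w + (w ^ 3 + D.l) = 0) ∧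
      ∃ l : ℝ, deriv ξ y * y = l * x ∧ l * ‖D.f x‖ = ‖D.swap.f y‖ := by
  have hx : ‖x‖ = 1 := by
    refine le_antisymm (D.A_le hy.le e) (not_lt.1 fun hlt => ?_)
    have := D.swap.A_lt (x := y) (y := x) hlt (by
      change (1 + D.l * x ^ 3) * y ^ 3 + gl D.l * D.b * x * y ^ 2 + gl D.l * D.a * x ^ 2 * y +
        (x ^ 3 + D.l) = 0
      linear_combination e)
    linarith
  have hM := D.M_ne' hx.le
  have hM' : Mm D.l D.b (y ^ 3) ≠ 0 := D.swap.M_ne' hy.le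
  have key : ∀ z w : ℂ, Mm D.l D.a (z ^ 3) ≠ 0 → Mm D.l D.b (w ^ 3) ≠ 0 →
      ((1 + D.l * w ^ 3) * z ^ 3 + gl D.l * D.a * w * z ^ 2 + gl D.l * D.b * w ^ 2 * z + (w ^ 3 + D.l)) *
        Bp D.l D.a D.b z w = Mm D.l D.a (z ^ 3) * Mm D.l D.b (w ^ 3) * (bl D.l D.a D.b z + bl D.l D.b D.a w) := by
    intro z w h1 h2
    rw [← factor' D.hs D.hr, bl, bl]
    field_simp
  have rel : bl D.l D.a D.b x + bl D.l D.b D.a y = 0 := by
    have := key x y hM hM'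
    rw [e, zero_mul] at this
    exact (mul_eq_zero.1 this.symm).resolve_left (mul_ne_zero hM hM')
  set β := gam D.a * (Ww D.l D.a D.b (x ^ 3) / Mm D.l D.a (x ^ 3) ^ 2) with hβ
  set β' := gam D.b * (Ww D.l D.b D.a (y ^ 3) / Mm D.l D.b (y ^ 3) ^ 2) with hβ'
  have l1 : x * β = bl D.l D.a D.b x * D.LL x := D.logder hx
  have l2 : y * β' = bl D.l D.b D.a y * D.swap.LL y := D.swap.logder hy
  have p1 := D.LL_pos hx
  have p1' : (D.LL x : ℂ) ≠ 0 := by exact_mod_cast p1.ne'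
  have hb := D.bb_ne hx
  have hβ0 : β ≠ 0 := by
    intro h0
    rw [h0, mul_zero] at l1
    exact mul_ne_zero hb p1' l1.symm
  have d1 : HasDerivAt (bl D.l D.a D.b) β x := hasDerivAt_bb' hM
  have d2 : HasDerivAt (bl D.l D.b D.a) β' y := hasDerivAt_bb' hM'
  have simple : (3 * (1 + D.l * y ^ 3) * x ^ 2 + 2 * (gl D.l * D.a * y) * x + gl D.l * D.b * y ^ 2) *
      Bp D.l D.a D.b x y ≠ 0 := by
    have dA : HasDerivAt (fun z => (1 + D.l * y ^ 3) * z ^ 3 + gl D.l * D.a * y * z ^ 2 +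
        gl D.l * D.b * y ^ 2 * z + (y ^ 3 + D.l))
        (3 * (1 + D.l * y ^ 3) * x ^ 2 + 2 * (gl D.l * D.a * y) * x + gl D.l * D.b * y ^ 2) x := by
      have := ((((hasDerivAt_pow 3 x).const_mul (1 + D.l * y ^ 3)).add
        ((hasDerivAt_pow 2 x).const_mul (gl D.l * D.a * y))).add
        ((hasDerivAt_id x).const_mul (gl D.l * D.b * y ^ 2))).add_const (y ^ 3 + D.l)
      refine this.congr_deriv ?_
      push_cast
      ring
    have dB : DifferentiableAt ℂ (fun z => Bp D.l D.a D.b z y) x := by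
      unfold Bp
      fun_prop
    have u1 := dA.mul dB.hasDerivAt
    have u2 := ((hasDerivAt_M' D.l D.a x).mul_const (Mm D.l D.b (y ^ 3))).mul
      (d1.add_const (bl D.l D.b D.a y))
    have u3 := u2.congr_of_eventuallyEq (f₁ := (fun z => (1 + D.l * y ^ 3) * z ^ 3 +
        gl D.l * D.a * y * z ^ 2 + gl D.l * D.b * y ^ 2 * z + (y ^ 3 + D.l)) * fun z => Bp D.l D.a D.b z y) (by
      filter_upwards [(analyticAt_M' D.l D.a x).continuousAt.eventually_ne hM] with z hz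
      exact key z y hz hM')
    have u4 := u1.unique u3
    simp only [e, rel, zero_mul, mul_zero, add_zero, zero_add] at u4
    rw [u4]
    exact mul_ne_zero (mul_ne_zero hM hM') hβ0
  have an1 := analyticAt_bb' (b := D.b) hM
  have an2 := analyticAt_bb' (b := D.a) hM'
  obtain ⟨G, gx, gd, ga, gr⟩ := exists_linv an1 d1 hβ0
  have r0 : -bl D.l D.b D.a y = bl D.l D.a D.b x := by linear_combination -rel
  have ξa : AnalyticAt ℂ (fun w => G (-bl D.l D.b D.a w)) y :=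
    AnalyticAt.comp_of_eq ga an2.neg r0
  have ξy : G (-bl D.l D.b D.a y) = x := by rw [r0, gx]
  refine ⟨hx, left_ne_zero_of_mul simple, fun w => G (-bl D.l D.b D.a w), ξa, ξy, ?_,
    D.swap.LL y / D.LL x, ?_, ?_⟩
  · have t1 : Tendsto (fun w => -bl D.l D.b D.a w) (𝓝 y) (𝓝 (bl D.l D.a D.b x)) := by
      rw [← r0]; exact an2.neg.continuousAt
    have t2 : Tendsto (fun w => G (-bl D.l D.b D.a w)) (𝓝 y) (𝓝 x) := by
      have := ξa.continuousAt.tendsto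
      rwa [ξy] at this
    have t3 : ContinuousAt (fun w => Bp D.l D.a D.b (G (-bl D.l D.b D.a w)) w) y := by
      have hB : Continuous fun p : ℂ × ℂ => Bp D.l D.a D.b p.1 p.2 := by
        unfold Bp
        fun_prop
      exact hB.continuousAt.comp (f := fun w => (G (-bl D.l D.b D.a w), w))
        (ξa.continuousAt.prodMk continuousAt_id)
    filter_upwards [t1.eventually gr,
      t2.eventually ((analyticAt_M' D.l D.a x).continuousAt.eventually_ne hM),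
      (analyticAt_M' D.l D.b y).continuousAt.eventually_ne hM',
      t3.eventually_ne (y := 0) (by rw [ξy]; exact right_ne_zero_of_mul simple)] with w a1 a2 a3 a4
    have := key _ w a2 a3
    rw [a1, neg_add_cancel, mul_zero] at this
    exact (mul_eq_zero.1 this).resolve_right a4
  · have := (HasDerivAt.comp_of_eq y gd d2.neg r0.symm).deriv
    have e2 : deriv (fun w => G (-bl D.l D.b D.a w)) y = β⁻¹ * -β' := this
    rw [e2]
    push_cast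
    field_simp
    linear_combination (-(D.LL x : ℂ)) * l2 - (D.swap.LL y : ℂ) * l1 -
      (D.LL x : ℂ) * (D.swap.LL y : ℂ) * rel
  · have n1 := D.norm_f x
    have n2 := D.swap.norm_f y
    have h3 : 0 < D.k := lt_of_lt_of_le (by norm_num) D.hk
    have n3 : 1 + (D.swap.c : ℂ) * bl D.swap.l D.swap.a D.swap.b y ^ 3 =
        1 + D.c * bl D.l D.a D.b x ^ 3 := by
      change 1 + (D.d : ℂ) * bl D.l D.b D.a y ^ 3 = _
      rw [D.hc, ← r0]
      push_cast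
      ring
    rw [n3] at n2
    change D.k * _ = _ at n2
    apply mul_left_cancel₀ h3.ne'
    rw [n2, mul_left_comm, n1]
    field_simp

lemma corr : Corr (fun y => 1 + D.l * y ^ 3) (fun y => gl D.l * D.a * y) (fun y => gl D.l * D.b * y ^ 2)
    (fun y => y ^ 3 + D.l) (fun z => ‖D.f z‖) (fun z => ‖D.swap.f z‖) where
  d3 := by fun_prop
  d2 := by fun_prop
  d1 := by fun_prop
  d0 := by fun_prop
  lead := fun _ hy => D.lead hy
  le := fun _ _ hy e => D.A_le hy e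
  lt := fun _ _ hy e => D.A_lt hy e
  branch := fun _ _ hy e => D.branch hy e

lemma disc_le (σ : ℝ) : Module.rank ℝ (Submodule.span ℝ (discSol (fun z => ‖D.f z‖) σ)) ≤
    Module.rank ℝ (Submodule.span ℝ (discSol (fun z => ‖D.swap.f z‖) σ)) :=
  rank_le _ _ (closedBall 0 1) _ (D.corr.maps σ) (fun _ hu => hu.2.2.2) D.inj

lemma disc_eq (σ : ℝ) : Module.rank ℝ (Submodule.span ℝ (discSol (fun z => ‖D.f z‖) σ)) =
    Module.rank ℝ (Submodule.span ℝ (discSol (fun z => ‖D.swap.f z‖) σ)) :=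
  le_antisymm (D.disc_le σ) (D.swap.disc_le σ)

end Par

end Pool.Agent.Lib.MP_33ede1_an.Near
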