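import Pool.Agent.Lib.MP_33ede1_an.Near.Corr
import Pool.Agent.Lib.MP_33ede1_an.Near.Convex

/-!
The two conformal maps of the family: closeness to the identity, isospectrality of their images,
and non-congruence.
-/

open Set Filter Topology Metric InnerProductSpace Complex
open scoped ContDiff ComplexConjugate

namespace Pool.Agent.Lib.MP_33ede1_an.Near

namespace Par

variable (D : Par)

lemma cube_bd {x : ℂ} (hx : x ∈ ball (0 : ℂ) D.r) : ‖x ^ 3‖ ≤ D.r ^ 3 := by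
  have h : ‖x‖ ≤ D.r := le_of_lt (by simpa using hx)
  rw [norm_pow]
  exact pow_le_pow_left₀ (norm_nonneg _) h 3

lemma f_sub {x : ℂ} (hx : x ∈ ball (0 : ℂ) D.r) : ‖D.f x - 1‖ ≤ 40 * D.e := by
  have h : ‖x‖ ≤ D.r := le_of_lt (by simpa using hx)
  have ht := D.cube_bd hx
  have hM := D.M_low ht
  have hM0 := D.M_ne ht
  have r1 := D.r_pow.1
  have r0 : 0 < D.r := by linarith [D.r3]
  have e0 := D.e0
  have e1 := D.e1
  have hN : ‖Nn D.l D.b (x ^ 3)‖ ≤ 4 * D.r ^ 6 := by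
    have n1 := norm_add_le (x ^ 3) D.l
    have n2 := norm_add_le (x ^ 3) (D.l * D.b ^ 3)
    rw [Nn, norm_mul]
    exact (mul_le_mul (b := 2 * D.r ^ 3) (d := 2 * D.r ^ 3) (by linarith [D.l_lt])
      (by linarith [D.lb_lt]) (norm_nonneg _) (by linarith)).trans (le_of_eq (by ring))
  have hb : ‖bl D.l D.a D.b x‖ ≤ 17 * D.r ^ 7 := by
    have r7 : 0 < D.r ^ 7 := by positivity
    have a1 : ‖x * Nn D.l D.b (x ^ 3) / Mm D.l D.a (x ^ 3)‖ ≤ 17 / 4 * D.r ^ 7 := by
      rw [norm_div, div_le_iff₀ (by linarith), norm_mul]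
      have a2 := mul_le_mul h hN (norm_nonneg _) r0.le
      have a3 : D.r * (4 * D.r ^ 6) = 4 * D.r ^ 7 := by ring
      have a4 := mul_le_mul_of_nonneg_left hM r7.le
      linarith
    rw [bl, norm_mul]
    exact (mul_le_mul D.gam_bd.2 a1 (norm_nonneg _) (by norm_num)).trans (le_of_eq (by ring))
  have hu : ‖(D.c : ℂ) * bl D.l D.a D.b x ^ 3‖ ≤ D.e := by
    rw [norm_mul, norm_pow, Complex.norm_real, Real.norm_eq_abs]
    have a1 := mul_le_mul_of_nonneg_left (pow_le_pow_left₀ (norm_nonneg _) hb 3) (abs_nonneg D.c)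
    have a2 : |D.c| * (17 * D.r ^ 7) ^ 3 = 4913 * (|D.c| * D.r ^ 21) := by ring
    have a3 : 0 ≤ |D.c| * D.r ^ 21 := by positivity
    linarith [D.ce]
  have hv : ‖QQ D.p1 D.p2 (x ^ 3) / Mm D.l D.a (x ^ 3) - 1‖ ≤ 16 * D.e := by
    rw [div_sub_one hM0, norm_div, div_le_iff₀ (by linarith)]
    have := norm_sub_le (QQ D.p1 D.p2 (x ^ 3) - 1) (Mm D.l D.a (x ^ 3) - 1)
    rw [sub_sub_sub_cancel_right] at this
    have a4 := mul_le_mul_of_nonneg_left hM e0
    linarith [D.Q_sub ht, D.M_sub ht]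
  set u := (D.c : ℂ) * bl D.l D.a D.b x ^ 3 with hu'
  set v := QQ D.p1 D.p2 (x ^ 3) / Mm D.l D.a (x ^ 3) - 1 with hv'
  have e : D.f x - 1 = u * (1 + v) ^ 2 + 2 * v + v ^ 2 := by
    rw [f, fl, hu', hv']; ring
  have n1 := norm_add₃_le (a := u * (1 + v) ^ 2) (b := 2 * v) (c := v ^ 2)
  have n2 : ‖1 + v‖ ≤ 2 := by
    have := norm_add_le 1 v
    rw [norm_one] at this
    linarith
  have n3 : ‖u‖ * ‖1 + v‖ ^ 2 ≤ D.e * 2 ^ 2 :=
    mul_le_mul hu (pow_le_pow_left₀ (norm_nonneg _) n2 2) (by positivity) e0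
  have n4 : ‖v‖ ^ 2 ≤ 2 * D.e := by nlinarith [norm_nonneg v]
  rw [norm_mul u, norm_mul 2, norm_pow, norm_pow, Complex.norm_ofNat] at n1
  rw [e]
  linarith

lemma f_diff : DifferentiableOn ℂ D.f (ball 0 D.r) := by
  intro x hx
  have hM := D.M_ne (D.cube_bd hx)
  have h1 := (analyticAt_bb' (b := D.b) hM).differentiableAt
  have h2 := (analyticAt_M' D.l D.a x).differentiableAt
  have h3 : DifferentiableAt ℂ (fun x => QQ D.p1 D.p2 (x ^ 3)) x := by
    unfold QQ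
    fun_prop
  exact (((h1.pow 3).const_mul _).const_add 1 |>.mul ((h3.div h2 hM).pow 2)).differentiableWithinAt

lemma f_zero : D.f 0 = 1 := by
  simp [f, fl, bl, QQ, Mm]

lemma f_rot {w : ℂ} (hw : w ^ 3 = 1) (x : ℂ) : D.f (w * x) = D.f x := by
  have e : (w * x) ^ 3 = x ^ 3 := by rw [mul_pow, hw, one_mul]
  have e2 : bl D.l D.a D.b (w * x) ^ 3 = bl D.l D.a D.b x ^ 3 := by
    have : bl D.l D.a D.b (w * x) = w * bl D.l D.a D.b x := by rw [bl, bl, e]; ring
    rw [this, mul_pow, hw, one_mul]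
  rw [f, fl, fl, e, e2]

lemma f_conj (x : ℂ) : conj (D.swap.f (conj x)) = D.neg.f x := by
  change conj (fl D.l D.b D.a D.q1 D.q2 D.d (conj x)) = fl D.l D.a D.b D.p1 D.p2 D.d x
  simp only [fl, bl, QQ, Nn, Mm, gam, map_mul, map_add, map_sub, map_pow, map_div₀, map_one,
    conj_ofReal, D.hl, conj_conj, D.ha, D.hb, D.h1, D.h2]

/-- `F` is the primitive of `D.f` vanishing at the origin. -/
def IsPrim (F : ℂ → ℂ) : Prop :=
  F 0 = 0 ∧ ∀ z ∈ ball (0 : ℂ) D.r, HasDerivAt F (D.f z) z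

lemma exists_prim : ∃ F, D.IsPrim F := D.f_diff.isExactOn_ball.with_val_at 0 0

variable {D}

lemma IsPrim.conf {F : ℂ → ℂ} (h : D.IsPrim F) : Conf F D.r where
  hr := by linarith [D.r3]
  hF := fun z hz => (h.2 z hz).differentiableAt.differentiableWithinAt
  hi := by
    intro x hx y hy e
    have := Convex.norm_image_sub_le_of_norm_hasDerivWithin_le (f := fun z => F z - z)
      (f' := fun z => D.f z - 1) (C := 1 / 2)
      (fun z hz => ((h.2 z hz).sub (hasDerivAt_id z)).hasDerivWithinAt)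
      (fun z hz => (D.f_sub hz).trans (by linarith [D.e1])) (convex_ball 0 _) hx hy
    have e2 : F y - y - (F x - x) = -(y - x) := by rw [e]; ring
    rw [e2, norm_neg] at this
    have h0 : ‖y - x‖ = 0 := by linarith [norm_nonneg (y - x)]
    exact (sub_eq_zero.1 (norm_eq_zero.1 h0)).symm
  hd := by
    intro z hz h0
    have := D.f_sub hz
    rw [← (h.2 z hz).deriv, h0, zero_sub, norm_neg, norm_one] at this
    linarith [D.e1]

lemma IsPrim.mult {F : ℂ → ℂ} (h : D.IsPrim F) (σ : ℝ) : steklovMultiplicity (F '' ball 0 1) σ =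
    Module.rank ℝ (Submodule.span ℝ (discSol (fun z => ‖D.f z‖) σ)) := by
  rw [h.conf.mult_eq]
  have : discSol (fun z => ‖deriv F z‖) σ = discSol (fun z => ‖D.f z‖) σ := by
    ext v
    refine and_congr_right fun _ => and_congr_right fun _ => and_congr_left fun _ => ?_
    refine forall_congr' fun z => forall_congr' fun hz => ?_
    simp only [(h.2 z (by simp only [mem_ball_zero_iff, hz]; linarith [D.r3])).deriv]
  rw [this]

lemma IsPrim.rot {F : ℂ → ℂ} (h : D.IsPrim F) {w : ℂ} (hw : w ^ 3 = 1) {z : ℂ}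
    (hz : z ∈ ball (0 : ℂ) 1) : w * z ∈ ball (0 : ℂ) 1 ∧ F (w * z) = w * F z := by
  have nw : ‖w‖ = 1 := by
    have := congrArg norm hw
    rw [norm_pow, norm_one] at this
    exact (pow_eq_one_iff_of_nonneg (norm_nonneg _) (by norm_num)).1 this
  have hm : ∀ z ∈ ball (0 : ℂ) 1, w * z ∈ ball (0 : ℂ) 1 := fun z hz => by
    simpa [nw] using hz
  have hd : ∀ z ∈ ball (0 : ℂ) 1, HasDerivAt (fun z => F (w * z) - w * F z) 0 z := fun z hz => by
    have h1 := (h.2 _ (h.conf.sub_open (hm z hz))).comp z ((hasDerivAt_id z).const_mul w)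
    have h2 := (h.2 _ (h.conf.sub_open hz)).const_mul w
    refine (h1.sub h2).congr_deriv ?_
    rw [D.f_rot hw]
    ring
  have := isOpen_ball.is_const_of_deriv_eq_zero (convex_ball (0 : ℂ) 1).isPreconnected
    (fun z hz => (hd z hz).differentiableAt.differentiableWithinAt)
    (fun z hz => (hd z hz).deriv) hz (mem_ball_self one_pos)
  simp only [mul_zero, h.1, sub_self] at this
  exact ⟨hm z hz, sub_eq_zero.1 this⟩

lemma IsPrim.mirror {G : ℂ → ℂ} (h : D.swap.IsPrim G) : D.neg.IsPrim (conj ∘ G ∘ conj) := by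
  refine ⟨by simp [h.1], fun z hz => ?_⟩
  have hz' : conj z ∈ ball (0 : ℂ) D.swap.r := by
    rw [mem_ball_zero_iff, norm_conj]
    exact mem_ball_zero_iff.1 hz
  have := (h.2 (conj z) hz').conj_conj
  rwa [D.f_conj, conj_conj] at this

lemma rigid {D' : Par} {F G : ℂ → ℂ} (hF : D.IsPrim F) (hG : D'.IsPrim G) {a b : ℂ}
    (ha : ‖a‖ = 1) (he : (fun z => a * z + b) '' (F '' ball 0 1) = G '' ball 0 1) :
    ∀ z ∈ ball (0 : ℂ) 1, D'.f (a * z) = D.f z := by
  have ha0 : a ≠ 0 := by rintro rfl; simp at ha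
  obtain ⟨w, hw3, hw1⟩ : ∃ w : ℂ, w ^ 3 = 1 ∧ w ^ 2 - 1 ≠ 0 := by
    obtain ⟨w, hw⟩ := IsAlgClosed.exists_pow_nat_eq (-3 / 4 : ℂ) (n := 2) (by norm_num)
    refine ⟨w - 1 / 2, by linear_combination (w - 3 / 2) * hw, fun h => ?_⟩
    have h1 : w = -3 / 2 := by linear_combination hw - h
    rw [h1] at hw
    norm_num at hw
  have hb : b = 0 := by
    have step : ∀ p ∈ G '' ball 0 1, p + (w ^ 2 - 1) * b ∈ G '' ball 0 1 := by
      intro p hp
      rw [← he] at hp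
      obtain ⟨_, ⟨z, hz, rfl⟩, rfl⟩ := hp
      have h1 : a * F (w * z) + b ∈ G '' ball 0 1 := by
        rw [← he]; exact ⟨_, ⟨_, (hF.rot hw3 hz).1, rfl⟩, rfl⟩
      obtain ⟨y, hy, e⟩ := h1
      have hw6 : (w ^ 2) ^ 3 = 1 := by rw [← pow_mul, mul_comm, pow_mul, hw3, one_pow]
      refine ⟨_, (hG.rot hw6 hy).1, ?_⟩
      rw [(hG.rot hw6 hy).2, e, (hF.rot hw3 hz).2]
      linear_combination a * F z * hw3
    have all : ∀ n : ℕ, (n : ℂ) * ((w ^ 2 - 1) * b) ∈ G '' ball 0 1 := by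
      intro n
      induction n with
      | zero => exact ⟨0, mem_ball_self one_pos, by simp [hG.1]⟩
      | succ n ih =>
        have := step _ ih
        rwa [Nat.cast_succ, add_mul, one_mul]
    obtain ⟨R, hR⟩ := hG.conf.smooth.2.2.1.exists_norm_le
    by_contra hb
    have hpos : 0 < ‖(w ^ 2 - 1) * b‖ := norm_pos_iff.2 (mul_ne_zero hw1 hb)
    obtain ⟨n, hn⟩ := exists_nat_gt (R / ‖(w ^ 2 - 1) * b‖)
    have := hR _ (all n)
    rw [norm_mul, Complex.norm_natCast] at this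
    rw [div_lt_iff₀ hpos] at hn
    linarith
  subst hb
  have hmem : ∀ z ∈ ball (0 : ℂ) 1, ∃ y ∈ ball (0 : ℂ) 1, G y = a * F z := fun z hz => by
    have : a * F z + 0 ∈ G '' ball 0 1 := by rw [← he]; exact ⟨_, ⟨_, hz, rfl⟩, rfl⟩
    rwa [add_zero] at this
  set H : ℂ → ℂ := fun z => cinv G D'.r (a * F z) with hH
  have hd : ∀ z ∈ ball (0 : ℂ) 1, H z ∈ ball (0 : ℂ) 1 ∧ G (H z) = a * F z ∧
      HasDerivAt H ((D'.f (H z))⁻¹ * (a * D.f z)) z := fun z hz => by
    obtain ⟨y, hy, e⟩ := hmem z hz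
    have hy' := hG.conf.sub_open hy
    have e1 : H z = y := by rw [hH]; simp only [← e, hG.conf.left hy']
    refine ⟨e1 ▸ hy, e1 ▸ e, ?_⟩
    have := HasDerivAt.comp_of_eq z (hG.conf.inv_strict hy').hasDerivAt
      ((hF.2 z (hF.conf.sub_open hz)).const_mul a) e
    rwa [(hG.2 y hy').deriv, ← e1] at this
  have H0 : H 0 = 0 := by
    have := hG.conf.left (z := 0) (mem_ball_self (by linarith [D'.r3]))
    rw [hG.1] at this
    simp only [hH, hF.1, mul_zero, this]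
  have d0 : dslope H 0 0 = a := by
    rw [dslope_same, (hd 0 (mem_ball_self one_pos)).2.2.deriv, H0, f_zero, f_zero]
    ring
  have aff := Complex.affine_of_mapsTo_ball_of_norm_dslope_eq_div (f := H) (c := 0) (z₀ := 0)
    (R₁ := 1) (R₂ := 1) (fun z hz => (hd z hz).2.2.differentiableAt.differentiableWithinAt)
    (fun z hz => by rw [H0]; exact ball_subset_closedBall (hd z hz).1) (mem_ball_self one_pos)
    (by rw [d0, ha]; norm_num)
  have aff' : ∀ z ∈ ball (0 : ℂ) 1, H z = a * z := fun z hz => by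
    rw [aff hz, H0, d0]; simp [mul_comm]
  intro z hz
  have h1 : HasDerivAt H a z := by
    refine (((hasDerivAt_id z).const_mul a).congr_of_eventuallyEq ?_).congr_deriv (mul_one a)
    filter_upwards [isOpen_ball.mem_nhds hz] with y hy using aff' y hy
  have h2 := h1.unique (hd z hz).2.2
  have h3 : D'.f (H z) ≠ 0 := by
    have := hG.conf.hd _ (hG.conf.sub_open (hd z hz).1)
    rwa [(hG.2 _ (hG.conf.sub_open (hd z hz).1)).deriv] at this
  rw [aff' z hz] at h2 h3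
  field_simp at h2
  exact h2

variable (D)

/-- The numerator of `D.f` as a function of the cube of the variable. -/
noncomputable def num (t : ℂ) : ℂ :=
  (Mm D.l D.a t ^ 3 + D.c * gam D.a ^ 3 * t * Nn D.l D.b t ^ 3) * QQ D.p1 D.p2 t ^ 2

lemma f_eq {x : ℂ} (h : Mm D.l D.a (x ^ 3) ≠ 0) : D.f x = D.num (x ^ 3) / Mm D.l D.a (x ^ 3) ^ 5 := by
  rw [f, fl, bl, num]
  field_simp

lemma poly_id {D' : Par} {a : ℂ} (ha : ‖a‖ = 1)
    (h : ∀ z ∈ ball (0 : ℂ) 1, D'.f (a * z) = D.f z) (t : ℂ) :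
    D'.num (a ^ 3 * t) * Mm D.l D.a t ^ 5 = D.num t * Mm D'.l D'.a (a ^ 3 * t) ^ 5 := by
  have key : (fun z : ℂ => D'.num ((a * z) ^ 3) * Mm D.l D.a (z ^ 3) ^ 5) =
      fun z : ℂ => D.num (z ^ 3) * Mm D'.l D'.a ((a * z) ^ 3) ^ 5 := by
    refine AnalyticOnNhd.eq_of_eventuallyEq (𝕜 := ℂ) (z₀ := 0) ?_ ?_ ?_
    · intro z _
      unfold num Mm Nn QQ
      fun_prop
    · intro z _
      unfold num Mm Nn QQ
      fun_prop
    · filter_upwards [ball_mem_nhds (0 : ℂ) one_pos] with z hz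
      have hz' : ‖z‖ ≤ 1 := le_of_lt (by simpa using hz)
      have m1 := D.M_ne' hz'
      have m2 := D'.M_ne' (x := a * z) (by simpa [ha] using hz')
      have := h z hz
      rw [D.f_eq m1, D'.f_eq m2, div_eq_div_iff (pow_ne_zero _ m2) (pow_ne_zero _ m1)] at this
      exact this
  obtain ⟨z, rfl⟩ := IsAlgClosed.exists_pow_nat_eq t (n := 3) (by norm_num)
  have := congrFun key z
  simpa only [mul_pow] using this

lemma c_ne : (D.c : ℂ) ≠ 0 := by
  exact_mod_cast D.c0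

lemma num_ne {t : ℂ} (ht : 1 ≤ ‖t‖) (h0 : Mm D.l D.a t = 0)
    (h1 : D.l * (1 + D.a ^ 3) + 2 * D.l ^ 2 * D.a ^ 3 * t ≠ 0) : D.num t ≠ 0 := by
  have t0 : t ≠ 0 := by rintro rfl; norm_num at ht
  have n0 := D.N_ne ht
  have hQ : QQ D.p1 D.p2 t ≠ 0 := by
    intro hq
    have := D.W_fac t
    rw [hq, mul_zero, Ww, h0, mul_zero, zero_sub, neg_eq_zero] at this
    exact mul_ne_zero (mul_ne_zero (mul_ne_zero three_ne_zero t0) n0) h1 this
  have g0 := D.gam_ne
  have c0 := D.c_ne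
  rw [num, h0, zero_pow three_ne_zero, zero_add]
  positivity

lemma a3_ne {μ : ℂ} (hμ : ‖μ‖ = 1) : 1 - D.a ^ 3 * μ ≠ 0 := by
  intro h
  have := congrArg norm (sub_eq_zero.1 h)
  rw [norm_mul, norm_pow, hμ, norm_one] at this
  linarith [D.norm_a3.1]

lemma mu_eq {D' : Par} (hl : D'.l = D.l) {μ : ℂ} (hμ : ‖μ‖ = 1)
    (h : ∀ t, D'.num (μ * t) * Mm D.l D.a t ^ 5 = D.num t * Mm D'.l D'.a (μ * t) ^ 5) : μ = 1 := by
  have al0 := D.l0
  have m0 : Mm D.l D.a (-1 / D.l) = 0 := by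
    rw [Mm]; field_simp; ring
  have n0 := D.num_ne (t := -1 / D.l) (by
    rw [norm_div, norm_neg, norm_one, le_div_iff₀ (norm_pos_iff.2 al0)]
    linarith [D.l_lt]) m0 (by
    have := D.a3_ne (μ := 1) norm_one
    have e : D.l * (1 + D.a ^ 3) + 2 * D.l ^ 2 * D.a ^ 3 * (-1 / D.l) = D.l * (1 - D.a ^ 3 * 1) := by
      field_simp; ring
    rw [e]
    exact mul_ne_zero al0 this)
  have := h (-1 / D.l)
  rw [m0, zero_pow (by norm_num), mul_zero] at this
  have h2 := pow_eq_zero_iff (by norm_num) |>.1 ((mul_eq_zero.1 this.symm).resolve_left n0)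
  have e : Mm D'.l D'.a (μ * (-1 / D.l)) = (1 - μ) * (1 - D'.a ^ 3 * μ) := by
    rw [Mm, hl]; field_simp; ring
  rw [e] at h2
  exact (sub_eq_zero.1 ((mul_eq_zero.1 h2).resolve_right (D'.a3_ne hμ))).symm

lemma not_neg {a : ℂ} (ha : ‖a‖ = 1) : ¬ ∀ z ∈ ball (0 : ℂ) 1, D.neg.f (a * z) = D.f z := by
  intro h
  have k := D.poly_id ha h
  have hμ := D.mu_eq (D' := D.neg) rfl (by rw [norm_pow, ha, one_pow]) k
  have k1 := k 1
  rw [hμ, one_mul] at k1
  have m := D.M_ne (t := 1) (by rw [norm_one]; exact D.r_pow.1)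
  have q := D.Q_ne (t := 1) (by rw [norm_one]; exact D.r_pow.1)
  have n := D.N_ne (t := 1) (by norm_num)
  have g0 := D.gam_ne
  have c0 := D.c_ne
  change (Mm D.l D.a 1 ^ 3 + D.d * gam D.a ^ 3 * 1 * Nn D.l D.b 1 ^ 3) * QQ D.p1 D.p2 1 ^ 2 *
    Mm D.l D.a 1 ^ 5 = D.num 1 * Mm D.l D.a 1 ^ 5 at k1
  rw [num, D.hc] at k1
  have : 2 * (D.c : ℂ) * gam D.a ^ 3 * Nn D.l D.b 1 ^ 3 * QQ D.p1 D.p2 1 ^ 2 * Mm D.l D.a 1 ^ 5 ≠ 0 :=
    mul_ne_zero (mul_ne_zero (mul_ne_zero (mul_ne_zero (mul_ne_zero two_ne_zero c0)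
      (pow_ne_zero _ g0)) (pow_ne_zero _ n)) (pow_ne_zero _ q)) (pow_ne_zero _ m)
  apply this
  push_cast at k1
  linear_combination -k1

lemma not_swap {a : ℂ} (ha : ‖a‖ = 1) : ¬ ∀ z ∈ ball (0 : ℂ) 1, D.swap.f (a * z) = D.f z := by
  intro h
  have k := D.poly_id ha h
  have hμ := D.mu_eq (D' := D.swap) rfl (by rw [norm_pow, ha, one_pow]) k
  have al0 := D.l0
  have a0 : D.a ≠ 0 := by
    intro h0
    have := D.hn
    rw [h0] at this
    norm_num at this
  have a1 := D.a3_ne (μ := 1) norm_one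
  have m0 : Mm D.l D.a (-1 / (D.l * D.a ^ 3)) = 0 := by
    rw [Mm]; field_simp; ring
  have n0 := D.num_ne (t := -1 / (D.l * D.a ^ 3)) (by
    rw [norm_div, norm_neg, norm_one, le_div_iff₀ (norm_pos_iff.2 (by positivity))]
    linarith [D.norm_la, D.norm_l]) m0 (by
    have e : D.l * (1 + D.a ^ 3) + 2 * D.l ^ 2 * D.a ^ 3 * (-1 / (D.l * D.a ^ 3)) =
        -D.l * (1 - D.a ^ 3 * 1) := by
      field_simp; ring
    rw [e]
    exact mul_ne_zero (neg_ne_zero.2 al0) a1)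
  have := k (-1 / (D.l * D.a ^ 3))
  rw [hμ, one_mul, m0, zero_pow (by norm_num), mul_zero] at this
  have h2 := pow_eq_zero_iff (by norm_num) |>.1 ((mul_eq_zero.1 this.symm).resolve_left n0)
  change Mm D.l D.b _ = 0 at h2
  have e : Mm D.l D.b (-1 / (D.l * D.a ^ 3)) * D.a ^ 6 =
      -(1 - D.a ^ 3 * 1) * (D.a ^ 3 - D.b ^ 3) := by
    rw [Mm]; field_simp; ring
  rw [h2, zero_mul] at e
  have h3 := (mul_eq_zero.1 e.symm).resolve_left (neg_ne_zero.2 a1)
  have hp := D.ab_eq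
  have hn := D.hn
  have h4 : (D.a - D.b) * ((1 - ‖D.a‖ ^ 2 : ℝ) : ℂ) = 0 := by
    rw [ofReal_sub, ← hp, ofReal_one]
    linear_combination h3 - (D.a - D.b) * (D.a + D.b - 1) * D.hs
  have h5 := (mul_eq_zero.1 h4).resolve_right (ofReal_ne_zero.2 (by linarith))
  have h6 : ((1 - 4 * ‖D.a‖ ^ 2 : ℝ) : ℂ) = 0 := by
    rw [ofReal_sub, ofReal_mul, ← hp, ofReal_one, ofReal_ofNat]
    linear_combination (D.a - D.b) * h5 - (D.a + D.b - 1) * D.hs
  have h7 := ofReal_eq_zero.1 h6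
  linarith

lemma not_congr {F G : ℂ → ℂ} (hF : D.IsPrim F) (hG : D.swap.IsPrim G) (φ : ℂ ≃ᵢ ℂ) :
    φ '' (F '' ball 0 1) ≠ G '' ball 0 1 := by
  intro he
  obtain ⟨a, ha⟩ := linear_isometry_complex φ.toRealLinearIsometryEquiv
  rcases ha with ha | ha
  · refine D.not_swap (Circle.norm_coe a) (rigid hF hG (b := φ 0) (Circle.norm_coe a) ?_)
    rw [← he]
    refine image_congr fun z _ => ?_
    have := φ.toRealLinearIsometryEquiv_apply z
    rw [ha, rotation_apply] at this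
    linear_combination this
  · have na : ‖conj (a : ℂ)‖ = 1 := by rw [norm_conj]; exact Circle.norm_coe a
    refine D.not_neg na (rigid hF hG.mirror (b := conj (φ 0)) na ?_)
    have e1 : (conj ∘ G ∘ conj) '' ball (0 : ℂ) 1 = conj '' (G '' ball 0 1) := by
      rw [image_comp, image_comp]
      congr 2
      ext z
      constructor
      · rintro ⟨y, hy, rfl⟩
        simpa using hy
      · intro hz
        exact ⟨conj z, by simpa using hz, conj_conj z⟩
    rw [e1, ← he, image_image conj]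
    refine image_congr fun z _ => ?_
    have := φ.toRealLinearIsometryEquiv_apply z
    rw [ha] at this
    have e2 : φ z = a * conj z + φ 0 := by
      simp only [LinearIsometryEquiv.trans_apply, conjLIE_apply, rotation_apply] at this
      linear_combination -this
    rw [e2]
    simp

lemma IsPrim.near {D : Par} {F : ℂ → ℂ} (h : D.IsPrim F) {z : ℂ} (hz : z ∈ ball (0 : ℂ) D.r) :
    ‖F z - z‖ ≤ 40 * D.e * D.r := by
  have := Convex.norm_image_sub_le_of_norm_hasDerivWithin_le (f := fun z => F z - z)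
    (f' := fun z => D.f z - 1) (C := 40 * D.e)
    (fun z hz => ((h.2 z hz).sub (hasDerivAt_id z)).hasDerivWithinAt)
    (fun z hz => D.f_sub hz) (convex_ball 0 _) (mem_ball_self (by linarith [D.r3])) hz
  rw [h.1, sub_self, sub_zero, sub_zero] at this
  exact this.trans (mul_le_mul_of_nonneg_left (le_of_lt (by simpa using hz))
    (by linarith [D.e0]))

lemma IsPrim.convex {D : Par} {F : ℂ → ℂ} (h : D.IsPrim F) :
    Convex ℝ (F '' ball 0 1) ∧ StrictConvex ℝ (closure (F '' ball 0 1)) :=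
  strictConvex_image h.conf D.r3 (δ := 40 * D.e) (by linarith [D.e1]) h.2 D.f_diff
    fun _ hz => D.f_sub hz

end Par

/-- Pairs of conformal maps arbitrarily close to the identity with strictly convex, isospectral,
non-congruent images. -/
theorem exists_pair (R ε : ℝ) (hε : 0 < ε) : ∃ F G : ℂ → ℂ,
    (∀ H : ℂ → ℂ, H = F ∨ H = G → DifferentiableOn ℂ H (ball 0 R) ∧ InjOn H (ball 0 R) ∧
      (∀ z ∈ ball (0 : ℂ) R, ‖H z - z‖ < ε) ∧ IsSmoothDomain (H '' ball 0 1) ∧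
      Convex ℝ (H '' ball 0 1) ∧ StrictConvex ℝ (closure (H '' ball 0 1))) ∧
    (∀ σ : ℝ, steklovMultiplicity (F '' ball 0 1) σ = steklovMultiplicity (G '' ball 0 1) σ) ∧
    ∀ φ : ℂ ≃ᵢ ℂ, φ '' (F '' ball 0 1) ≠ G '' ball 0 1 := by
  have r0 : 0 < max R 3 := lt_of_lt_of_le (by norm_num) (le_max_right R 3)
  obtain ⟨D, hr, he⟩ := exists_par (r := max R 3) (e := min (1 / 200) (ε / (41 * max R 3)))
    (le_max_right R 3) (lt_min (by norm_num) (by positivity)) (min_le_left _ _)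
  have small : 40 * D.e * D.r < ε := by
    have h1 : D.e ≤ ε / (41 * D.r) := by rw [he, hr]; exact min_le_right _ _
    rw [← hr] at r0
    rw [le_div_iff₀ (by positivity)] at h1
    have h2 : D.e * (41 * D.r) = 41 * (D.e * D.r) := by ring
    have h3 : 40 * D.e * D.r = 40 * (D.e * D.r) := by ring
    linarith
  have sub : ball (0 : ℂ) R ⊆ ball 0 D.r := ball_subset_ball (hr ▸ le_max_left R 3)
  obtain ⟨F, hF⟩ := D.exists_prim
  obtain ⟨G, hG⟩ := D.swap.exists_prim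
  refine ⟨F, G, ?_, fun σ => by rw [hF.mult, hG.mult, D.disc_eq], D.not_congr hF hG⟩
  rintro H (rfl | rfl)
  · exact ⟨hF.conf.hF.mono sub, hF.conf.hi.mono sub,
      fun z hz => (hF.near (sub hz)).trans_lt small, hF.conf.smooth, hF.convex⟩
  · exact ⟨hG.conf.hF.mono sub, hG.conf.hi.mono sub,
      fun z hz => (hG.near (sub hz)).trans_lt small, hG.conf.smooth, hG.convex⟩

end Pool.Agent.Lib.MP_33ede1_an.Near
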