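import Pool.Agent.Lib.MP_33ede1_an.Near.Alg

/-!
The family of pairs of Blaschke products: parameters, existence and the basic estimates.
-/

open Set Filter Topology Metric InnerProductSpace Complex Polynomial
open scoped ContDiff ComplexConjugate

namespace Pool.Agent.Lib.MP_33ede1_an.Near

/-- The rational function of degree seven. -/
noncomputable def bl (l a b x : ℂ) : ℂ := gam a * (x * Nn l b (x ^ 3) / Mm l a (x ^ 3))

/-- The derivative of the conformal map. -/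
noncomputable def fl (l a b p1 p2 : ℂ) (c : ℝ) (x : ℂ) : ℂ :=
  (1 + c * bl l a b x ^ 3) * (QQ p1 p2 (x ^ 3) / Mm l a (x ^ 3)) ^ 2

/-- The parameters: `r` is the radius of the disc of definition and `e` the size of the
perturbation. -/
structure Par where
  l : ℂ
  a : ℂ
  b : ℂ
  q1 : ℂ
  p1 : ℂ
  q2 : ℂ
  p2 : ℂ
  k : ℝ
  c : ℝ
  d : ℝ
  r : ℝ
  e : ℝ
  hl : conj l = l
  l0 : l ≠ 0
  ha : conj a = b
  h1 : conj q1 = p1
  h2 : conj q2 = p2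
  hs : a + b = -1
  hr : l ^ 2 * (a * b) ^ 2 + a * b - 2 = 0
  hn : 19 / 10 ≤ ‖a‖ ^ 2
  hn' : ‖a‖ ^ 2 ≤ 2
  hc : d = -c
  c0 : c ≠ 0
  hk : 3 ≤ k
  r3 : 3 ≤ r
  e1 : e ≤ 1 / 200
  le : ‖l‖ * r ^ 6 ≤ e
  ce : 5000 * |c| * r ^ 21 ≤ e
  w0 : k * q2 = l ^ 2 * b ^ 3
  w0' : k * p2 = l ^ 2 * a ^ 3
  w1 : k * (q1 + q2 * p1) = Rr l b a
  w1' : k * (p1 + p2 * q1) = Rr l a b
  w2 : k * (1 + q1 * p1 + q2 * p2) =
    7 + (l * (1 + b ^ 3)) * (l * (1 + a ^ 3)) - 5 * (l ^ 2 * b ^ 3) * (l ^ 2 * a ^ 3)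

lemma solve_one {k m m' R R' : ℂ} (k0 : k ≠ 0) (kn : k ^ 2 - m * m' ≠ 0) :
    k * ((k * R' - m' * R) / (k ^ 2 - m * m') + m' / k * ((k * R - m * R') / (k ^ 2 - m * m'))) =
      R' := by
  have e : k * (m' / k) = m' := by field_simp
  rw [mul_add, ← mul_assoc, e, ← mul_div_assoc, ← mul_div_assoc, ← add_div, div_eq_iff kn]
  ring

lemma solve_two {k S W m m' R R' : ℂ} (k0 : k ≠ 0) (kn : k ^ 2 - m * m' ≠ 0)
    (hk : k ^ 2 - S * k + m * m' = 0)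
    (hI : (S - W) * (S ^ 2 - 4 * (m * m')) + R * R' * S - (m * R' ^ 2 + m' * R ^ 2) = 0) :
    k * (1 + (k * R' - m' * R) / (k ^ 2 - m * m') * ((k * R - m * R') / (k ^ 2 - m * m')) +
      m' / k * (m / k)) = W := by
  have hD : (k ^ 2 - m * m') * (k ^ 2 - m * m') = k ^ 2 * (S ^ 2 - 4 * (m * m')) := by
    linear_combination (k ^ 2 + S * k + m * m') * hk
  have hN : (k * R' - m' * R) * (k * R - m * R') =
      k * (R * R' * S - (m * R' ^ 2 + m' * R ^ 2)) := by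
    linear_combination (R * R') * hk
  have e1 : k * ((k * R' - m' * R) / (k ^ 2 - m * m') * ((k * R - m * R') / (k ^ 2 - m * m'))) =
      W - S := by
    rw [div_mul_div_comm, ← mul_div_assoc, div_eq_iff (mul_ne_zero kn kn)]
    linear_combination k * hN - (W - S) * hD + k ^ 2 * hI
  have e2 : k * (m' / k * (m / k)) = S - k := by
    field_simp
    linear_combination hk
  linear_combination e1 + e2

lemma exists_par {r e : ℝ} (hr : 3 ≤ r) (he0 : 0 < e) (he : e ≤ 1 / 200) :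
    ∃ D : Par, D.r = r ∧ D.e = e := by
  have r0 : 0 < r := by linarith
  have r6 : 1 ≤ r ^ 6 := one_le_pow₀ (by linarith)
  obtain ⟨u, u0, u1, u2⟩ : ∃ u : ℝ, 0 < u ∧ u ≤ 1 / 200 ∧ u * r ^ 6 = e :=
    ⟨e / r ^ 6, by positivity, (div_le_self he0.le r6).trans he, by field_simp⟩
  obtain ⟨P, hP⟩ : ∃ P : ℝ, P = 2 - u ^ 2 := ⟨_, rfl⟩
  have P1 : 19 / 10 ≤ P := by rw [hP]; nlinarith
  have P2 : P ≤ 2 := by rw [hP]; nlinarith
  obtain ⟨l, hl⟩ : ∃ l : ℝ, l * P = u := ⟨u / P, by field_simp⟩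
  have l0 : 0 < l := by
    by_contra h
    have := mul_nonpos_of_nonpos_of_nonneg (not_lt.1 h) (by linarith : 0 ≤ P)
    linarith
  have l1 : l ≤ u := by nlinarith
  have rel : l ^ 2 * P ^ 2 + P - 2 = 0 := by rw [← mul_pow, hl, hP]; ring
  obtain ⟨s, s2⟩ : ∃ s : ℝ, s ^ 2 = P - 1 / 4 := ⟨√(P - 1 / 4), Real.sq_sqrt (by linarith)⟩
  obtain ⟨S, hS⟩ : ∃ S : ℝ, S = 4 * P - 1 - l ^ 2 * P := ⟨_, rfl⟩
  obtain ⟨n, hn⟩ : ∃ n : ℝ, n = l ^ 4 * P ^ 3 := ⟨_, rfl⟩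
  have ll : l ^ 2 ≤ 1 / 100 := by nlinarith
  have S6 : 6 ≤ S := by rw [hS]; nlinarith
  have n1 : n ≤ 1 := by
    have a1 : l ^ 4 ≤ 1 / 10000 := by nlinarith [sq_nonneg l]
    have a2 : P ^ 3 ≤ 2 ^ 3 := pow_le_pow_left₀ (by linarith) P2 3
    have a3 := mul_le_mul a1 a2 (by positivity) (by norm_num)
    rw [hn]
    linarith
  obtain ⟨k, k3, hk⟩ : ∃ k : ℝ, 3 ≤ k ∧ k ^ 2 - S * k + n = 0 := by
    have d2 : √(S ^ 2 - 4 * n) ^ 2 = S ^ 2 - 4 * n := Real.sq_sqrt (by nlinarith)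
    exact ⟨(S + √(S ^ 2 - 4 * n)) / 2, by linarith [Real.sqrt_nonneg (S ^ 2 - 4 * n)],
      by linear_combination (1 / 4) * d2⟩
  have s3 : (s : ℂ) ^ 2 = P - 1 / 4 := by
    have := congrArg ((↑) : ℝ → ℂ) s2
    push_cast at this
    exact this
  obtain ⟨a, ha⟩ : ∃ a : ℂ, a = -1 / 2 + s * I := ⟨_, rfl⟩
  obtain ⟨b, hb⟩ : ∃ b : ℂ, b = -1 / 2 - s * I := ⟨_, rfl⟩
  have e1 : a + b = -1 := by rw [ha, hb]; ring
  have e2 : a * b = P := by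
    rw [ha, hb]; linear_combination (-(s : ℂ) ^ 2) * I_sq + s3
  have e3 : conj a = b := by
    rw [ha, hb]
    simp only [map_add, map_mul, map_div₀, map_neg, map_one, map_ofNat, conj_ofReal, conj_I]
    ring
  have e4 : conj b = a := by rw [← e3, conj_conj]
  have na : ‖a‖ ^ 2 = P := by
    have := Complex.mul_conj' a
    rw [e3, e2] at this
    exact_mod_cast this.symm
  have rel' : (l : ℂ) ^ 2 * (a * b) ^ 2 + a * b - 2 = 0 := by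
    rw [e2]
    exact_mod_cast rel
  have mm : ((l : ℂ) ^ 2 * a ^ 3) * ((l : ℂ) ^ 2 * b ^ 3) = n := by
    rw [hn]
    push_cast
    rw [← e2]
    ring
  have k0 : (k : ℂ) ≠ 0 := by exact_mod_cast (by linarith : k ≠ 0)
  have kn : (k : ℂ) ^ 2 - ((l : ℂ) ^ 2 * a ^ 3) * ((l : ℂ) ^ 2 * b ^ 3) ≠ 0 := by
    rw [mm]
    exact_mod_cast (by nlinarith : k ^ 2 - n ≠ 0)
  have kn' : (k : ℂ) ^ 2 - ((l : ℂ) ^ 2 * b ^ 3) * ((l : ℂ) ^ 2 * a ^ 3) ≠ 0 := by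
    rwa [mul_comm ((l : ℂ) ^ 2 * b ^ 3)]
  have hk' : (k : ℂ) ^ 2 - Ss l (a * b) * k + ((l : ℂ) ^ 2 * a ^ 3) * ((l : ℂ) ^ 2 * b ^ 3) = 0 := by
    rw [mm, e2, Ss]
    rw [hS] at hk
    exact_mod_cast hk
  have cR : conj (Rr l b a) = Rr l a b := by
    simp only [Rr, map_add, map_sub, map_mul, map_pow, map_one, map_ofNat, conj_ofReal, e3, e4]
  have cR' : conj (Rr l a b) = Rr l b a := by rw [← cR, conj_conj]
  have c1 : 0 < e / (5000 * r ^ 21) := by positivity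
  refine ⟨⟨l, a, b,
    (k * Rr l b a - l ^ 2 * b ^ 3 * Rr l a b) / (k ^ 2 - (l ^ 2 * a ^ 3) * (l ^ 2 * b ^ 3)),
    (k * Rr l a b - l ^ 2 * a ^ 3 * Rr l b a) / (k ^ 2 - (l ^ 2 * a ^ 3) * (l ^ 2 * b ^ 3)),
    l ^ 2 * b ^ 3 / k, l ^ 2 * a ^ 3 / k, k, e / (5000 * r ^ 21), -(e / (5000 * r ^ 21)), r, e,
    conj_ofReal l, by exact_mod_cast l0.ne', e3, ?_, ?_, e1, rel', by rwa [na], by rwa [na], rfl,
    c1.ne', k3, hr, he, ?_, ?_, by field_simp, by field_simp, solve_one k0 kn, ?_,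
    solve_two k0 kn hk' (w_val e1 rel')⟩, rfl, rfl⟩
  · rw [mm]
    simp only [map_div₀, map_sub, map_mul, map_pow, conj_ofReal, cR, cR', e4]
  · simp only [map_div₀, map_mul, map_pow, conj_ofReal, e4]
  · rw [Complex.norm_real, Real.norm_of_nonneg l0.le, ← u2]
    exact mul_le_mul_of_nonneg_right l1 (by positivity)
  · rw [abs_of_pos c1]
    apply le_of_eq
    field_simp
  · rw [mul_comm ((l : ℂ) ^ 2 * a ^ 3) ((l : ℂ) ^ 2 * b ^ 3)]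
    exact solve_one k0 kn'

namespace Par

/-- The dual data. -/
def swap (D : Par) : Par where
  l := D.l
  a := D.b
  b := D.a
  q1 := D.p1
  p1 := D.q1
  q2 := D.p2
  p2 := D.q2
  k := D.k
  c := D.d
  d := D.c
  r := D.r
  e := D.e
  hl := D.hl
  l0 := D.l0
  ha := by rw [← D.ha, conj_conj]
  h1 := by rw [← D.h1, conj_conj]
  h2 := by rw [← D.h2, conj_conj]
  hs := by rw [add_comm, D.hs]
  hr := by rw [mul_comm D.b, D.hr]
  hn := by rw [← D.ha, norm_conj]; exact D.hn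
  hn' := by rw [← D.ha, norm_conj]; exact D.hn'
  hc := by rw [D.hc, neg_neg]
  c0 := by rw [D.hc]; exact neg_ne_zero.2 D.c0
  hk := D.hk
  r3 := D.r3
  e1 := D.e1
  le := D.le
  ce := by rw [D.hc, abs_neg]; exact D.ce
  w0 := D.w0'
  w0' := D.w0
  w1 := D.w1'
  w1' := D.w1
  w2 := by linear_combination D.w2

/-- The same data with the opposite weight. -/
def neg (D : Par) : Par :=
  { D with
    c := D.d
    d := D.c
    hc := by rw [D.hc, neg_neg]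
    c0 := by rw [D.hc]; exact neg_ne_zero.2 D.c0
    ce := by rw [D.hc, abs_neg]; exact D.ce }

/-- The derivative of the conformal map attached to the data. -/
noncomputable def f (D : Par) : ℂ → ℂ := fl D.l D.a D.b D.p1 D.p2 D.c

variable (D : Par)

lemma hb : conj D.b = D.a := D.swap.ha

lemma ab_eq : D.a * D.b = ((‖D.a‖ ^ 2 : ℝ) : ℂ) := by
  rw [← D.ha, Complex.mul_conj']
  push_cast
  rfl

lemma norm_a3 : 2 ≤ ‖D.a‖ ^ 3 ∧ ‖D.a‖ ^ 3 ≤ 3 := by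
  have h := D.hn
  have h' := D.hn'
  have h0 := norm_nonneg D.a
  have h1 : ‖D.a‖ ≤ 15 / 10 := by nlinarith
  have h2 : 13 / 10 ≤ ‖D.a‖ := by nlinarith
  have : ‖D.a‖ ^ 3 = ‖D.a‖ ^ 2 * ‖D.a‖ := by ring
  constructor <;> nlinarith

lemma r_pow : 1 ≤ D.r ^ 3 ∧ D.r ^ 3 ≤ D.r ^ 6 :=
  ⟨one_le_pow₀ (by linarith [D.r3]), pow_le_pow_right₀ (by linarith [D.r3]) (by norm_num)⟩

lemma l_r3 : ‖D.l‖ * D.r ^ 3 ≤ D.e :=
  (mul_le_mul_of_nonneg_left D.r_pow.2 (norm_nonneg _)).trans D.le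

lemma norm_l : ‖D.l‖ ≤ 1 / 200 :=
  ((le_mul_of_one_le_right (norm_nonneg _) D.r_pow.1).trans D.l_r3).trans D.e1

lemma e0 : 0 ≤ D.e := (mul_nonneg (norm_nonneg _) (by linarith [D.r_pow.1])).trans D.l_r3

lemma norm_la : ‖D.l * D.a ^ 3‖ ≤ 3 * ‖D.l‖ := by
  rw [norm_mul, norm_pow, mul_comm]
  exact mul_le_mul_of_nonneg_right D.norm_a3.2 (norm_nonneg _)

lemma l_lt : ‖D.l‖ < 1 := lt_of_le_of_lt D.norm_l (by norm_num)

lemma lb_lt : ‖D.l * D.b ^ 3‖ < 1 := by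
  have h : ‖D.l * D.b ^ 3‖ ≤ 3 * ‖D.l‖ := D.swap.norm_la
  linarith [D.norm_l]

lemma gl_ne : gl D.l ≠ 0 := by
  intro h
  have := congrArg norm (sub_eq_zero.1 h)
  rw [norm_one, norm_pow] at this
  nlinarith [D.norm_l, norm_nonneg D.l]

lemma conj_lb : conj (D.l * D.b ^ 3) = D.l * D.a ^ 3 := by
  rw [map_mul, map_pow, D.hl, D.hb]

lemma norm_gam : ‖gam D.b‖ = ‖gam D.a‖ := by
  rw [← norm_conj (gam D.a)]
  simp only [gam, map_mul, map_pow, map_sub, map_one, D.ha]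

lemma gam_bd : 0 < ‖gam D.a‖ ∧ ‖gam D.a‖ ≤ 4 := by
  have h : (1 - D.a) * (1 - D.b) = ((2 + ‖D.a‖ ^ 2 : ℝ) : ℂ) := by
    rw [ofReal_add, ← D.ab_eq]
    push_cast
    linear_combination -D.hs
  have h2 : ‖1 - D.b‖ = ‖1 - D.a‖ := by
    rw [← norm_conj (1 - D.a), map_sub, map_one, D.ha]
  have h3 := congrArg norm h
  rw [norm_mul, h2, Complex.norm_real, Real.norm_of_nonneg (by positivity)] at h3
  have h0 := norm_nonneg (1 - D.a)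
  have n1 := D.hn
  have n2 := D.hn'
  have h4 : ‖1 - D.a‖ ≤ 2 := by nlinarith
  have h5 : 1 ≤ ‖1 - D.a‖ := by nlinarith
  rw [gam, norm_mul, norm_pow]
  constructor <;> nlinarith

lemma gam_ne : gam D.a ≠ 0 := norm_pos_iff.1 D.gam_bd.1

lemma N_le {t : ℂ} (ht : ‖t‖ ≤ 1) : ‖Nn D.l D.b t‖ ≤ ‖Mm D.l D.a t‖ := by
  have h1 := bl_le D.l_lt ht
  have h2 := bl_le D.lb_lt ht
  rw [D.hl] at h1
  rw [D.conj_lb] at h2
  rw [Nn, Mm, norm_mul, norm_mul]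
  exact mul_le_mul h1 h2 (norm_nonneg _) (norm_nonneg _)

lemma N_ge {t : ℂ} (ht : 1 ≤ ‖t‖) : ‖Mm D.l D.a t‖ ≤ ‖Nn D.l D.b t‖ := by
  have h1 := bl_ge D.l_lt ht
  have h2 := bl_ge D.lb_lt ht
  rw [D.hl] at h1
  rw [D.conj_lb] at h2
  rw [Nn, Mm, norm_mul, norm_mul]
  exact mul_le_mul h1 h2 (norm_nonneg _) (norm_nonneg _)

lemma N_ne {t : ℂ} (ht : 1 ≤ ‖t‖) : Nn D.l D.b t ≠ 0 :=
  mul_ne_zero (add_ne D.l_lt ht) (add_ne D.lb_lt ht)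

lemma M_sub {t : ℂ} (ht : ‖t‖ ≤ D.r ^ 3) : ‖Mm D.l D.a t - 1‖ ≤ 5 * D.e := by
  have h0 := D.l_r3
  have h1 : ‖D.l * t‖ ≤ D.e := by
    rw [norm_mul]
    exact (mul_le_mul_of_nonneg_left ht (norm_nonneg _)).trans h0
  have h2 : ‖D.l * D.a ^ 3 * t‖ ≤ 3 * D.e := by
    rw [norm_mul]
    have := mul_le_mul D.norm_la ht (norm_nonneg _) (by positivity)
    linarith
  have e : Mm D.l D.a t - 1 =
      D.l * t + D.l * D.a ^ 3 * t + (D.l * t) * (D.l * D.a ^ 3 * t) := by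
    rw [Mm]; ring
  have h3 := norm_add₃_le (a := D.l * t) (b := D.l * D.a ^ 3 * t)
    (c := (D.l * t) * (D.l * D.a ^ 3 * t))
  rw [norm_mul (D.l * t)] at h3
  have h4 := mul_le_mul h1 h2 (norm_nonneg _) D.e0
  rw [e]
  nlinarith [D.e0, D.e1]

lemma M_low {t : ℂ} (ht : ‖t‖ ≤ D.r ^ 3) : 95 / 100 ≤ ‖Mm D.l D.a t‖ := by
  have h1 := D.M_sub ht
  have h2 := norm_sub_norm_le (1 : ℂ) (Mm D.l D.a t)
  rw [norm_sub_rev, norm_one] at h2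
  linarith [D.e1]

lemma M_ne {t : ℂ} (ht : ‖t‖ ≤ D.r ^ 3) : Mm D.l D.a t ≠ 0 :=
  norm_pos_iff.1 (lt_of_lt_of_le (by norm_num) (D.M_low ht))

lemma M_ne' {x : ℂ} (hx : ‖x‖ ≤ 1) : Mm D.l D.a (x ^ 3) ≠ 0 :=
  D.M_ne ((Dat.cube_le hx).trans D.r_pow.1)

lemma p_bd : ‖D.p1‖ ≤ 9 * ‖D.l‖ ∧ ‖D.p2‖ ≤ ‖D.l‖ := by
  have hk := D.hk
  have hl := D.norm_l
  have l0 := norm_nonneg D.l
  have a3 := D.norm_a3.2
  have m2 : ‖D.l ^ 2 * D.a ^ 3‖ ≤ ‖D.l‖ := by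
    rw [norm_mul, norm_pow, norm_pow]
    have := mul_le_mul_of_nonneg_left a3 (sq_nonneg ‖D.l‖)
    nlinarith
  have m1 : ∀ E : Par, ‖E.l * (1 + E.a ^ 3)‖ ≤ 4 * ‖E.l‖ := fun E => by
    have := norm_add_le E.l (E.l * E.a ^ 3)
    rw [mul_add, mul_one]
    linarith [E.norm_la]
  have kk : ‖(D.k : ℂ)‖ = D.k := by rw [Complex.norm_real, Real.norm_of_nonneg (by linarith)]
  constructor
  · have hR : ‖Rr D.l D.a D.b‖ ≤ 17 * ‖D.l‖ := by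
      have n1 := norm_sub_le (4 * (D.l * (1 + D.a ^ 3)))
        (2 * (D.l ^ 2 * D.a ^ 3) * (D.l * (1 + D.b ^ 3)))
      have n2 : ‖D.l * (1 + D.b ^ 3)‖ ≤ 4 * ‖D.l‖ := m1 D.swap
      have n3 := mul_le_mul m2 n2 (norm_nonneg _) l0
      rw [norm_mul 4, norm_mul (2 * _), norm_mul 2, Complex.norm_ofNat, Complex.norm_ofNat] at n1
      rw [Rr]
      nlinarith [m1 D]
    have e : (D.k : ℂ) * D.p1 = Rr D.l D.a D.b - D.l ^ 2 * D.a ^ 3 * D.q1 := by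
      linear_combination D.w1' - D.q1 * D.w0'
    have n1 := norm_sub_le (Rr D.l D.a D.b) (D.l ^ 2 * D.a ^ 3 * D.q1)
    have n2 : ‖D.q1‖ = ‖D.p1‖ := by rw [← D.h1, norm_conj]
    rw [← e, norm_mul, norm_mul (_ * _), kk, n2] at n1
    have n3 := mul_le_mul_of_nonneg_right (m2.trans hl) (norm_nonneg D.p1)
    nlinarith [norm_nonneg D.p1]
  · have h := congrArg norm D.w0'
    rw [norm_mul, kk] at h
    nlinarith [norm_nonneg D.p2]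

lemma Q_sub {t : ℂ} (ht : ‖t‖ ≤ D.r ^ 3) : ‖QQ D.p1 D.p2 t - 1‖ ≤ 10 * D.e := by
  have e : QQ D.p1 D.p2 t - 1 = D.p1 * t + D.p2 * t ^ 2 := by rw [QQ]; ring
  have h := norm_add_le (D.p1 * t) (D.p2 * t ^ 2)
  rw [norm_mul, norm_mul, norm_pow] at h
  have h0 := norm_nonneg t
  have h1 := mul_le_mul D.p_bd.1 ht h0 (by positivity)
  have h2 := mul_le_mul D.p_bd.2 (pow_le_pow_left₀ h0 ht 2) (by positivity) (norm_nonneg _)
  have h3 : (D.r ^ 3) ^ 2 = D.r ^ 6 := by ring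
  rw [h3] at h2
  rw [e]
  linarith [D.l_r3, D.le]

lemma Q_ne {t : ℂ} (ht : ‖t‖ ≤ D.r ^ 3) : QQ D.p1 D.p2 t ≠ 0 := by
  intro h
  have := D.Q_sub ht
  rw [h, zero_sub, norm_neg, norm_one] at this
  linarith [D.e1]

end Par

end Pool.Agent.Lib.MP_33ede1_an.Near
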